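import Mathlib.Data.ZMod.Basic
import Mathlib.Data.Fintype.Prod

/-!
# Local states of the mod 2 graph invariant of free knots, and the finite checks
-/

namespace Pool.Agent.Helper67.Heptagon

/-- values at the four slots of a chord: (in 1, in 2, out 1, out 2) -/
abbrev Pat := Bool × Bool × Bool × Bool

/-- local states of a chord -/
inductive St
  | e | s1 | s2 | b1 | b2 | b3 | b4 | i | u | h
  deriving DecidableEq

open St

/-- active slots -/
def act : St → Pat
  | e => (false, false, false, false)
  | s1 => (true, false, true, false)
  | s2 => (false, true, false, true)
  | b1 => (false, true, true, true)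
  | b2 => (true, false, true, true)
  | b3 => (true, true, false, true)
  | b4 => (true, true, true, false)
  | i => (true, true, true, true)
  | u => (true, true, true, true)
  | h => (true, true, true, true)

/-- number of branch vertices -/
def bb : St → ℕ
  | e => 0 | s1 => 0 | s2 => 0
  | b1 => 1 | b2 => 1 | b3 => 1 | b4 => 1
  | i => 0 | u => 0 | h => 2

/-- the allowed cycle patterns with their costs -/
def allowed : St → List (Pat × ℕ)
  | e => [((false, false, false, false), 0)]
  | s1 => [((false, false, false, false), 0), ((true, false, true, false), 0)]
  | s2 => [((false, false, false, false), 0), ((false, true, false, true), 0)]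
  | b1 => [((false, false, false, false), 0), ((false, true, true, false), 1),
      ((false, true, false, true), 1), ((false, false, true, true), 1)]
  | b2 => [((false, false, false, false), 0), ((true, false, true, false), 1),
      ((true, false, false, true), 1), ((false, false, true, true), 1)]
  | b3 => [((false, false, false, false), 0), ((true, true, false, false), 1),
      ((true, false, false, true), 1), ((false, true, false, true), 1)]
  | b4 => [((false, false, false, false), 0), ((true, true, false, false), 1),
      ((true, false, true, false), 1), ((false, true, true, false), 1)]
  | i => [((false, false, false, false), 0), ((true, false, false, true), 0),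
      ((false, true, true, false), 0), ((true, true, true, true), 0)]
  | u => [((false, false, false, false), 0), ((true, true, false, false), 0),
      ((false, false, true, true), 0), ((true, true, true, true), 0)]
  | h => [((false, false, false, false), 0), ((true, true, false, false), 1),
      ((false, false, true, true), 1), ((true, true, true, true), 2),
      ((true, false, true, false), 2), ((true, false, false, true), 2),
      ((false, true, true, false), 2), ((false, true, false, true), 2)]

/-- value at the in-slot of the given occurrence -/
def inn (b : Bool) (p : Pat) : Bool := if b then p.2.1 else p.1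
/-- value at the out-slot of the given occurrence -/
def out (b : Bool) (p : Pat) : Bool := if b then p.2.2.2 else p.2.2.1

/-- an occurrence symbol in a piece: letter code and occurrence -/
abbrev Sym := ℕ × Bool

/-- follow a segment -/
def chainEnd (κ : ℕ → Pat) : List Sym → Bool → Option Bool
  | [], c => some c
  | y :: S, c => if inn y.2 (κ y.1) = c then chainEnd κ S (out y.2 (κ y.1)) else none

/-- start and end values of a nonempty segment, if consistent -/
def ends (κ : ℕ → Pat) : List Sym → Option (Bool × Bool)
  | [] => none
  | y :: S => match chainEnd κ S (out y.2 (κ y.1)) with
    | some c => some (inn y.2 (κ y.1), c)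
    | none => none

/-- look up in a triple -/
def look (k : Pat × Pat × Pat) : ℕ → Pat
  | 0 => k.1
  | 1 => k.2.1
  | 2 => k.2.2
  | _ => (false, false, false, false)

abbrev E6 := (Bool × Bool) × (Bool × Bool) × (Bool × Bool)

abbrev Piece := List Sym × List Sym × List Sym

/-- the inner occurrence symbols that do not occur in the piece -/
def absent (P : Piece) : List Sym :=
  [(0, false), (0, true), (1, false), (1, true), (2, false), (2, true)].filter
    fun y => !(P.1 ++ P.2.1 ++ P.2.2).contains y

def absOK (P : Piece) (k : Pat × Pat × Pat) : Bool :=
  (absent P).all fun y => !(inn y.2 (look k y.1)) && !(out y.2 (look k y.1))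

/-- end values of the three segments, if consistent -/
def conf (P : Piece) (k : Pat × Pat × Pat) : Option E6 :=
  match ends (look k) P.1 with
  | none => none
  | some a => match ends (look k) P.2.1 with
    | none => none
    | some b => match ends (look k) P.2.2 with
      | none => none
      | some c => if absOK P k then some (a, b, c) else none

def b2n (b : Bool) : ℕ := if b then 1 else 0

def code (e : E6) : ℕ :=
  b2n e.1.1 + 2 * b2n e.1.2 + 4 * b2n e.2.1.1 + 8 * b2n e.2.1.2 + 16 * b2n e.2.2.1
    + 32 * b2n e.2.2.2

def zero6 : E6 := ((false, false), (false, false), (false, false))
def zeroP : Pat := (false, false, false, false)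

def zero3 : Pat × Pat × Pat := (zeroP, zeroP, zeroP)

/-- bitwise or over a list -/
def orL {α : Type} (l : List α) (f : α → ℕ) : ℕ := l.foldr (fun x acc => f x ||| acc) 0

/-- the bit recorded by a cycle pattern `k` of cost `c` inside the piece: nothing if it is
inconsistent or expensive, bit 400 if it is a closed nonzero pattern, and otherwise the bit
given by its cost and its end values -/
def bits (P : Piece) (k : Pat × Pat × Pat) (c : ℕ) : ℕ :=
  match conf P k with
  | none => 0
  | some g => if Nat.ble 5 c then 0 else
      if Nat.beq (code g) 0 && !(decide (k = zero3)) then 2 ^ 400 else 2 ^ (64 * c + code g)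

/-- the spectrum mask -/
def mask (P : Piece) (t : St × St × St) : ℕ :=
  orL (allowed t.1) fun x => orL (allowed t.2.1) fun y =>
    if (ends (look (x.1, y.1, zeroP)) P.1).isNone then 0 else
      orL (allowed t.2.2) fun z => bits P (x.1, y.1, z.1) (x.2 + y.2 + z.2)

/-- the key of a local state of the piece -/
def keyOf (P : Piece) (t : St × St × St) : Option ℕ :=
  match conf P (act t.1, act t.2.1, act t.2.2) with
  | none => none
  | some g => if Nat.testBit (mask P t) 400 then none else
      some (code g + 64 * (bb t.1 + bb t.2.1 + bb t.2.2) + 1024 * mask P t)

def allSt : List St := [e, s1, s2, b1, b2, b3, b4, i, u, h]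

def triples : List (St × St × St) :=
  allSt.flatMap fun x => allSt.flatMap fun y => allSt.map fun z => (x, y, z)

def keys (P : Piece) : List ℕ := triples.filterMap (keyOf P)

def toggle (k : ℕ) (l : List ℕ) : List ℕ := if l.contains k then l.erase k else k :: l

def reduce (l : List ℕ) : List ℕ := l.foldr toggle []

/-- the check -/
def chk (P Q : Piece) : Bool := (reduce (keys P ++ keys Q)).isEmpty

def pO1 : Piece := ([(0, false), (0, true)], [(1, false)], [(2, false)])
def pO1' : Piece := ([(0, false)], [(1, false)], [(2, false)])


def pO2a : Piece := ([(0, false), (1, false)], [(1, true), (0, true)], [(2, false)])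
def pO2b : Piece := ([(0, false), (1, false)], [(0, true), (1, true)], [(2, false)])

def pO3 (x y z : Bool) : Piece :=
  (if x then [(1, false), (0, false)] else [(0, false), (1, false)],
   if y then [(2, false), (0, true)] else [(0, true), (2, false)],
   if z then [(2, true), (1, true)] else [(1, true), (2, true)])

end Pool.Agent.Helper67.Heptagon
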