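import Pool.Agent.Helper67.Heptagon.Check

/-!
# The finite checks, evaluated by the kernel
-/

namespace Pool.Agent.Helper67.Heptagon

theorem chk1 : chk pO1 pO1' = true := by decide +kernel

theorem chk2a : chk pO2a pO1' = true := by decide +kernel

theorem chk2b : chk pO2b pO1' = true := by decide +kernel

theorem chk3a : chk (pO3 false false false) (pO3 true true true) = true := by decide +kernel

theorem chk3b : chk (pO3 false false true) (pO3 true true false) = true := by decide +kernel

theorem chk3c : chk (pO3 false true false) (pO3 true false true) = true := by decide +kernel

theorem chk3d : chk (pO3 true false false) (pO3 false true true) = true := by decide +kernel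

end Pool.Agent.Helper67.Heptagon
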