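import Mathlib

/-!
# Free knots: Gauss words and the three moves
-/

namespace Pool.Agent.Helper67.Heptagon

/-- A Gauss word: every letter that occurs in it occurs exactly twice.  Cyclic words (Gauss
diagrams) are Gauss words up to `Move.rotate`, `Move.reverse` and `Move.rename`. -/
def IsGauss (w : List ℕ) : Prop := ∀ x ∈ w, w.count x = 2

/-- The elementary moves: identifications of Gauss words that give the same Gauss diagram
(cyclic shift, reversal, renaming) and the moves `Ω₁`, `Ω₂` (two forms) and `Ω₃`. -/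
inductive Move : List ℕ → List ℕ → Prop
  | rotate (U V : List ℕ) : Move (U ++ V) (V ++ U)
  | reverse (w : List ℕ) : Move w w.reverse
  | rename (σ : Equiv.Perm ℕ) (w : List ℕ) : Move w (w.map σ)
  | omega1 (a : ℕ) (U : List ℕ) : Move ([a, a] ++ U) U
  | omega2 (a b : ℕ) (U V : List ℕ) : a ≠ b → Move ([a, b] ++ U ++ [b, a] ++ V) (U ++ V)
  | omega2' (a b : ℕ) (U V : List ℕ) : a ≠ b → Move ([a, b] ++ U ++ [a, b] ++ V) (U ++ V)
  | omega3 (a b c : ℕ) (P Q R U V W : List ℕ) : a ≠ b → a ≠ c → b ≠ c →
      (P = [a, b] ∨ P = [b, a]) → (Q = [a, c] ∨ Q = [c, a]) → (R = [b, c] ∨ R = [c, b]) →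
      Move (P ++ U ++ Q ++ V ++ R ++ W)
        (P.reverse ++ U ++ Q.reverse ++ V ++ R.reverse ++ W)

/-- Two Gauss words represent the same free knot: they are connected by a finite sequence of
moves and inverse moves through Gauss words. -/
def FreeEquiv : List ℕ → List ℕ → Prop :=
  Relation.EqvGen fun v w => IsGauss v ∧ IsGauss w ∧ Move v w

/-- The heptagon `H₇`: chord `i` is linked with exactly the chords `i - 1` and `i + 1`
(indices mod 7). -/
def heptagon : List ℕ := [1, 7, 2, 1, 3, 2, 4, 3, 5, 4, 6, 5, 7, 6]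

end Pool.Agent.Helper67.Heptagon
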