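import Pool.Agent.Helper67.Heptagon.Sem

/-!
# A letter with a single occurrence can be removed
-/

namespace Pool.Agent.Helper67.Heptagon

open St

/-- the straight state -/
def ds (v : Bool) : St := if v then s1 else e

/-- the straight pattern -/
def dp (v : Bool) : Pat := (v, false, v, false)

theorem act_ds (v : Bool) : act (ds v) = dp v := by cases v <;> rfl
theorem bb_ds (v : Bool) : bb (ds v) = 0 := by cases v <;> rfl
theorem cost_ds (v : Bool) (w : Bool) : cost (ds v) (dp w) = if w && !v then 5 else 0 := by
  cases v <;> cases w <;> rfl

theorem eq_ds {t : St} (h : inn true (act t) = false ∧ out true (act t) = false) :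
    t = ds (inn false (act t)) ∧ inn false (act t) = out false (act t) := by
  revert h; cases t <;> decide

theorem cost_ds_lt {v : Bool} {p : Pat} (h : cost (ds v) p < 5) : ∃ w, p = dp w := by
  obtain ⟨a, b, c, d⟩ := p
  revert h
  cases v <;> cases a <;> cases b <;> cases c <;> cases d <;> decide

theorem cost_inn {t : St} {p : Pat} {b : Bool} (h1 : inn b (act t) = false)
    (h2 : inn b p = true) : 5 ≤ cost t p := by
  obtain ⟨a1, a2, a3, a4⟩ := p
  revert h1 h2
  cases t <;> cases a1 <;> cases a2 <;> cases a3 <;> cases a4 <;> cases b <;> decide

/-- consistency with and without a single occurrence -/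
theorem Cons_dummy {a : ℕ} {y : Sym} {U : List Sym} (ha : ∀ b, (a, b) ∉ y :: U)
    {κ : ℕ → Pat} {v : Bool} (hv : κ a = dp v) :
    Cons ((a, false) :: y :: U) κ ↔
      Cons (y :: U) (Function.update κ a zeroP) ∧ v = inn y.2 (κ y.1) := by
  have hya : y.1 ≠ a := by
    intro h
    apply ha y.2
    rw [← h]
    simp
  have hc : ∀ c, chainEnd (Function.update κ a zeroP) (y :: U) c = chainEnd κ (y :: U) c := by
    intro c
    apply chain_congr
    intro z hz
    rw [Function.update_of_ne]
    intro h
    apply ha z.2
    rw [← h]
    exact hz
  have hia : inn false (κ a) = v := by rw [hv]; cases v <;> rfl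
  have hoa : out false (κ a) = v := by rw [hv]; cases v <;> rfl
  unfold Cons
  simp only [hc]
  constructor
  · rintro ⟨⟨c, h1⟩, h2⟩
    rw [chain_cons] at h1
    simp only [hia, hoa] at h1
    obtain ⟨rfl, h1⟩ := h1
    refine ⟨⟨⟨v, h1⟩, ?_⟩, ?_⟩
    · intro x b hx
      by_cases hxa : x = a
      · subst hxa
        simp only [Function.update_self]
        cases b <;> exact ⟨rfl, rfl⟩
      · rw [Function.update_of_ne hxa]
        apply h2
        rw [List.mem_cons]
        rintro (h | h)
        · exact hxa (congrArg Prod.fst h)
        · exact hx h
    · rw [chain_cons] at h1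
      exact h1.1.symm
  · rintro ⟨⟨⟨c, h1⟩, h2⟩, rfl⟩
    have h3 := h1
    rw [chain_cons] at h3
    obtain ⟨h3, -⟩ := h3
    subst h3
    refine ⟨⟨inn y.2 (κ y.1), ?_⟩, ?_⟩
    · rw [chain_cons]
      simp only [hia, hoa]
      exact ⟨trivial, h1⟩
    · intro x b hx
      by_cases hxa : x = a
      · subst hxa
        have hb : b = true := by
          cases b
          · exact absurd (by simp) hx
          · rfl
        subst hb
        rw [hv]
        cases inn y.2 (κ y.1) <;> exact ⟨rfl, rfl⟩
      · have := h2 x b (fun h => hx (List.mem_cons_of_mem _ h))
        rwa [Function.update_of_ne hxa] at this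

theorem GS_dummy {a : ℕ} {y : Sym} {U : List Sym} (ha : ∀ b, (a, b) ∉ y :: U) (s : ℕ → St) :
    s ∈ GS ((a, false) :: y :: U) ↔
      s a = ds (inn y.2 (act (s y.1))) ∧ Function.update s a e ∈ GS (y :: U) := by
  have hya : y.1 ≠ a := by
    intro h
    apply ha y.2
    rw [← h]
    simp
  -- the value at the dummy letter is forced
  have hforce : Cons ((a, false) :: y :: U) (fun x => act (s x)) →
      s a = ds (inn y.2 (act (s y.1))) := by
    rintro ⟨⟨c, h1⟩, h2⟩
    have h3 := h2 a true (by
      rw [List.mem_cons]
      rintro (h | h)
      · simp at h
      · exact ha true h)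
    obtain ⟨h4, h5⟩ := eq_ds h3
    rw [chain_cons, chain_cons] at h1
    simp only at h1
    rw [h4, h1.2.1, h5]
  have hmain : s a = ds (inn y.2 (act (s y.1))) →
      (s ∈ GS ((a, false) :: y :: U) ↔ Function.update s a e ∈ GS (y :: U)) := by
    intro hsa
    set v := inn y.2 (act (s y.1)) with hvdef
    have hupd : (fun x => act (Function.update s a e x)) =
        Function.update (fun x => act (s x)) a zeroP := by
      funext x
      by_cases hx : x = a
      · subst hx; simp [act, zeroP]
      · simp [Function.update_of_ne hx]
    have hC : Cons ((a, false) :: y :: U) (fun x => act (s x)) ↔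
        Cons (y :: U) (fun x => act (Function.update s a e x)) := by
      rw [Cons_dummy ha (v := v) (κ := fun x => act (s x)) (by simp only [hsa, act_ds]), hupd]
      simp only [and_iff_left_iff_imp]
      exact fun _ => rfl
    have hB : ∑ᶠ x, bb (Function.update s a e x) = ∑ᶠ x, bb (s x) := by
      refine finsum_congr fun x => ?_
      by_cases hx : x = a
      · subst hx
        rw [hsa, bb_ds]; simp [bb]
      · rw [Function.update_of_ne hx]
    have hcostU : ∀ κ : ℕ → Pat, (∃ w, κ a = dp w ∧ cost (s a) (κ a) = 0) →
        ∑ᶠ x, cost (Function.update s a e x) (Function.update κ a zeroP x) =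
          ∑ᶠ x, cost (s x) (κ x) := by
      rintro κ ⟨w, -, hw⟩
      refine finsum_congr fun x => ?_
      by_cases hx : x = a
      · subst hx
        simp only [Function.update_self, cost_zero, hw]
      · rw [Function.update_of_ne hx, Function.update_of_ne hx]
    simp only [GS, Set.mem_setOf_eq, hC, hB]
    refine and_congr_right fun hCs => and_congr_right fun _ => ?_
    have hCs' := hC.2 hCs
    constructor
    · intro H κ' hκ' hz
      have hκa : κ' a = zeroP := hκ'.zero ha
      by_cases hbad : inn y.2 (κ' y.1) = true ∧ v = false
      · -- the cycle leaves the active part at the head of the word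
        have h5 : 5 ≤ cost (Function.update s a e y.1) (κ' y.1) := by
          rw [Function.update_of_ne hya]
          exact cost_inn hbad.2 hbad.1
        have hfin : (Function.support fun x => cost (Function.update s a e x) (κ' x)).Finite :=
          (Finset.finite_toSet _).subset (supp_cost _ hκ')
        have := single_le_finsum y.1 hfin (fun _ => Nat.zero_le _)
        omega
      · set w := inn y.2 (κ' y.1) with hw
        have hκ2 : Cons ((a, false) :: y :: U) (Function.update κ' a (dp w)) := by
          rw [Cons_dummy ha (v := w) (by simp)]
          refine ⟨?_, ?_⟩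
          · have : Function.update (Function.update κ' a (dp w)) a zeroP = κ' := by
              rw [Function.update_idem, ← hκa, Function.update_eq_self]
            rwa [this]
          · rw [Function.update_of_ne hya]
        have hz2 : Function.update κ' a (dp w) ≠ zk := by
          intro h
          apply hz
          funext x
          by_cases hx : x = a
          · subst hx; exact hκa
          · have := congrFun h x
            rwa [Function.update_of_ne hx] at this
        have := H _ hκ2 hz2
        have hc0 : cost (s a) (dp w) = 0 := by
          rw [hsa, cost_ds, if_neg]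
          intro hh
          rw [Bool.and_eq_true, Bool.not_eq_true'] at hh
          exact hbad hh
        rw [← hcostU _ ⟨w, by simp, by simpa using hc0⟩] at this
        rwa [Function.update_idem, ← hκa, Function.update_eq_self] at this
    · intro H κ hκ hz
      by_cases hlt : cost (s a) (κ a) < 5
      · rw [hsa] at hlt
        obtain ⟨w, hw⟩ := cost_ds_lt hlt
        have h2 := (Cons_dummy ha hw).1 hκ
        have hc0 : cost (s a) (κ a) = 0 := by
          rw [hw, cost_ds] at hlt
          rw [hsa, hw, cost_ds]
          split_ifs at hlt ⊢ <;> omega
        rw [← hcostU κ ⟨w, hw, hc0⟩]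
        refine H _ h2.1 ?_
        intro h
        apply hz
        have hother : ∀ x, x ≠ a → κ x = zeroP := by
          intro x hx
          have := congrFun h x
          rwa [Function.update_of_ne hx] at this
        have hw0 : w = false := by
          rw [h2.2, hother _ hya]
          cases y.2 <;> rfl
        funext x
        by_cases hx : x = a
        · subst hx
          rw [hw, hw0]
          rfl
        · exact hother x hx
      · have hfin : (Function.support fun x => cost (s x) (κ x)).Finite :=
          (Finset.finite_toSet _).subset (supp_cost _ hκ)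
        have := single_le_finsum a hfin (fun _ => Nat.zero_le _)
        omega
  constructor
  · intro hs
    have h1 := hforce hs.1
    exact ⟨h1, (hmain h1).1 hs⟩
  · rintro ⟨h1, h2⟩
    exact (hmain h1).2 h2

theorem Z_dummy_cons {a : ℕ} {U : List Sym} (ha : ∀ b, (a, b) ∉ U) :
    Z ((a, false) :: U) = Z U := by
  cases U with
  | nil => rw [Z_small (by simp), Z_small (by simp)]
  | cons y U =>
    have hya : y.1 ≠ a := by
      intro h
      apply ha y.2
      rw [← h]
      simp
    have hnot : a ∉ letters (y :: U) := not_mem_letters.2 ha
    have : GS ((a, false) :: y :: U) =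
        (fun s => Function.update s a (ds (inn y.2 (act (s y.1))))) '' GS (y :: U) := by
      ext s
      rw [GS_dummy ha, Set.mem_image]
      constructor
      · rintro ⟨h1, h2⟩
        refine ⟨_, h2, ?_⟩
        rw [Function.update_of_ne hya, Function.update_idem, ← h1, Function.update_eq_self]
      · rintro ⟨s', h1, rfl⟩
        refine ⟨?_, ?_⟩
        · rw [Function.update_self, Function.update_of_ne hya]
        · have : s' a = e := h1.1.eq_e hnot
          rw [Function.update_idem, ← this, Function.update_eq_self]
          exact h1
    rw [Z, Z, this, Set.ncard_image_of_injOn]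
    intro s hs s' hs' h
    have h1 : s a = e := hs.1.eq_e hnot
    have h2 : s' a = e := hs'.1.eq_e hnot
    funext x
    by_cases hx : x = a
    · subst hx; rw [h1, h2]
    · have := congrFun h x
      simp only [Function.update_of_ne hx] at this
      exact this

/-- removal of a letter with a single occurrence -/
theorem Z_dummy {a : ℕ} {A B : List Sym} (ha : ∀ b, (a, b) ∉ A) (hb : ∀ b, (a, b) ∉ B) :
    Z (A ++ (a, false) :: B) = Z (A ++ B) := by
  rw [Z_rot, List.cons_append, Z_dummy_cons, Z_rot]
  intro b
  rw [List.mem_append]
  rintro (h | h)
  · exact hb b h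
  · exact ha b h

end Pool.Agent.Helper67.Heptagon
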