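import Pool.Agent.Helper67.Heptagon.Sem

/-!
# Gluing: the state sum depends on a piece only through its list of keys, mod 2
-/

namespace Pool.Agent.Helper67.Heptagon

open St

/-- a function on ℕ from its values at 0, 1, 2 and the rest -/
def joinG {α : Type} (t : α × α × α) (r : ℕ → α) : ℕ → α
  | 0 => t.1
  | 1 => t.2.1
  | 2 => t.2.2
  | n + 3 => r n

theorem look_eq (k : Pat × Pat × Pat) : look k = joinG k zk := by
  funext n
  match n with
  | 0 => rfl
  | 1 => rfl
  | 2 => rfl
  | n + 3 => rfl

theorem joinG_lt {α : Type} (t : α × α × α) (r r' : ℕ → α) {n : ℕ} (hn : n < 3) :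
    joinG t r n = joinG t r' n := by
  match n with
  | 0 => rfl
  | 1 => rfl
  | 2 => rfl
  | n + 3 => omega

theorem joinG_surj {α : Type} (s : ℕ → α) : joinG (s 0, s 1, s 2) (fun n => s (n + 3)) = s := by
  funext n
  match n with
  | 0 => rfl
  | 1 => rfl
  | 2 => rfl
  | n + 3 => rfl

/-- shift of the outer letters -/
def up (L : List Sym) : List Sym := L.map fun y => (y.1 + 3, y.2)

/-- the word obtained from a piece and three outer words -/
def glue (P : Piece) (U V W : List Sym) : List Sym :=
  P.1 ++ (up U ++ (P.2.1 ++ (up V ++ (P.2.2 ++ up W))))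

/-- admissible pieces -/
def Adm (P : Piece) : Prop :=
  (∀ y ∈ P.1, y.1 < 2) ∧ (∀ y ∈ P.2.1, y.1 < 3) ∧ (∀ y ∈ P.2.2, y.1 < 3) ∧
    P.1 ≠ [] ∧ P.2.1 ≠ [] ∧ P.2.2 ≠ []

/-- consistency of the outer part with given end values of the piece -/
def Outer (U V W : List Sym) (ρ : ℕ → Pat) (E : E6) : Prop :=
  chainEnd ρ U E.1.2 = some E.2.1.1 ∧ chainEnd ρ V E.2.1.2 = some E.2.2.1 ∧
    chainEnd ρ W E.2.2.2 = some E.1.1 ∧
    ∀ x b, (x, b) ∉ U ++ V ++ W → inn b (ρ x) = false ∧ out b (ρ x) = false

theorem ends_iff {κ : ℕ → Pat} {S : List Sym} (hS : S ≠ []) (g : Bool × Bool) :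
    ends κ S = some g ↔ chainEnd κ S g.1 = some g.2 := by
  obtain ⟨a, c⟩ := g
  cases S with
  | nil => exact absurd rfl hS
  | cons y S =>
    rw [chain_cons]
    unfold ends
    cases h : chainEnd κ S (out y.2 (κ y.1)) with
    | none => simp [h]
    | some d => simp [h]

theorem conf_iff {P : Piece} {k : Pat × Pat × Pat} {E : E6} :
    conf P k = some E ↔ ends (look k) P.1 = some E.1 ∧ ends (look k) P.2.1 = some E.2.1 ∧
      ends (look k) P.2.2 = some E.2.2 ∧ absOK P k = true := by
  obtain ⟨a, b, c⟩ := E
  unfold conf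
  cases h1 : ends (look k) P.1 <;> cases h2 : ends (look k) P.2.1 <;>
    cases h3 : ends (look k) P.2.2 <;> by_cases h4 : absOK P k = true <;> simp [h4]

theorem absOK_iff {P : Piece} {k : Pat × Pat × Pat} :
    absOK P k = true ↔ ∀ x b, x < 3 → (x, b) ∉ P.1 ++ P.2.1 ++ P.2.2 →
      inn b (look k x) = false ∧ out b (look k x) = false := by
  unfold absOK absent
  rw [List.all_eq_true]
  constructor
  · intro H x b hx hn
    have := H (x, b) (by
      rw [List.mem_filter]
      refine ⟨?_, ?_⟩
      · match x, b with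
        | 0, false => simp
        | 0, true => simp
        | 1, false => simp
        | 1, true => simp
        | 2, false => simp
        | 2, true => simp
        | x + 3, _ => omega
      · simpa using hn)
    simpa using this
  · intro H y hy
    rw [List.mem_filter] at hy
    have h3 : y.1 < 3 := by
      have := hy.1
      simp only [List.mem_cons, List.not_mem_nil, or_false] at this
      rcases this with h | h | h | h | h | h <;> rw [h] <;> norm_num
    have := H y.1 y.2 h3 (by simpa using hy.2)
    simpa using this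

theorem chain_up (k : Pat × Pat × Pat) (ρ : ℕ → Pat) (U : List Sym) (a : Bool) :
    chainEnd (joinG k ρ) (up U) a = chainEnd ρ U a :=
  chain_map (joinG k ρ) ρ (fun y => (y.1 + 3, y.2)) U (fun _ _ => ⟨rfl, rfl⟩) a

theorem chain_in {k : Pat × Pat × Pat} {ρ : ℕ → Pat} {S : List Sym} (hS : ∀ y ∈ S, y.1 < 3)
    (a : Bool) : chainEnd (joinG k ρ) S a = chainEnd (look k) S a := by
  apply chain_congr
  intro y hy
  rw [look_eq]
  exact joinG_lt _ _ _ (hS y hy)

theorem mem_glue_lo {P : Piece} {U V W : List Sym} {x : ℕ} {b : Bool} (hx : x < 3) :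
    (x, b) ∈ glue P U V W ↔ (x, b) ∈ P.1 ++ P.2.1 ++ P.2.2 := by
  have h : ∀ L : List Sym, (x, b) ∉ up L := by
    intro L hL
    simp only [up, List.mem_map, Prod.mk.injEq] at hL
    obtain ⟨y, -, h, -⟩ := hL
    omega
  simp only [glue, List.mem_append, h, false_or, or_false]
  tauto

theorem mem_glue_hi {P : Piece} (hP : Adm P) {U V W : List Sym} {x : ℕ} {b : Bool} :
    (x + 3, b) ∈ glue P U V W ↔ (x, b) ∈ U ++ V ++ W := by
  have h : ∀ L : List Sym, (x + 3, b) ∈ up L ↔ (x, b) ∈ L := by
    intro L
    simp [up]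
  have h1 : (x + 3, b) ∉ P.1 := fun hh => by have := hP.1 _ hh; simp only at this; omega
  have h2 : (x + 3, b) ∉ P.2.1 := fun hh => by have := hP.2.1 _ hh; simp only at this; omega
  have h3 : (x + 3, b) ∉ P.2.2 := fun hh => by have := hP.2.2.1 _ hh; simp only at this; omega
  simp only [glue, List.mem_append, h, h1, h2, h3, false_or]
  tauto

theorem Cons_glue {P : Piece} (hP : Adm P) (U V W : List Sym) (k : Pat × Pat × Pat)
    (ρ : ℕ → Pat) :
    Cons (glue P U V W) (joinG k ρ) ↔ ∃ E, conf P k = some E ∧ Outer U V W ρ E := by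
  have hS1 : ∀ y ∈ P.1, y.1 < 3 := fun y hy => (hP.1 y hy).trans (by norm_num)
  have hab : (∀ x b, (x, b) ∉ glue P U V W →
      inn b (joinG k ρ x) = false ∧ out b (joinG k ρ x) = false) ↔
      absOK P k = true ∧ ∀ x b, (x, b) ∉ U ++ V ++ W → inn b (ρ x) = false ∧ out b (ρ x) = false := by
    rw [absOK_iff]
    constructor
    · intro H
      refine ⟨fun x b hx hn => ?_, fun x b hn => ?_⟩
      · have := H x b (by rwa [mem_glue_lo hx])
        rw [look_eq, joinG_lt k zk ρ hx]
        exact this
      · have := H (x + 3) b (by rwa [mem_glue_hi hP])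
        exact this
    · rintro ⟨H1, H2⟩ x b hn
      by_cases hx : x < 3
      · rw [mem_glue_lo hx] at hn
        have := H1 x b hx hn
        rw [look_eq, joinG_lt k zk ρ hx] at this
        exact this
      · obtain ⟨n, rfl⟩ : ∃ n, x = n + 3 := ⟨x - 3, by omega⟩
        rw [mem_glue_hi hP] at hn
        exact H2 n b hn
  unfold Cons
  rw [hab]
  simp only [conf_iff, ends_iff hP.2.2.2.1, ends_iff hP.2.2.2.2.1, ends_iff hP.2.2.2.2.2, Outer]
  simp only [glue, chain_append, chain_up, chain_in hS1, chain_in hP.2.1, chain_in hP.2.2.1]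
  constructor
  · rintro ⟨⟨a, c1, h1, a2, h2, c2, h3, a3, h4, c3, h5, h6⟩, h7, h8⟩
    exact ⟨((a, c1), (a2, c2), (a3, c3)), ⟨h1, h3, h5, h7⟩, h2, h4, h6, h8⟩
  · rintro ⟨((⟨⟨a, c1⟩, ⟨a2, c2⟩, ⟨a3, c3⟩⟩)), ⟨h1, h3, h5, h7⟩, h2, h4, h6, h8⟩
    exact ⟨⟨a, c1, h1, a2, h2, c2, h3, a3, h4, c3, h5, h6⟩, h7, h8⟩

/-! ### splitting sums -/

theorem finsum_split {f : ℕ → ℕ} (hf : f.support.Finite) :
    ∑ᶠ x, f x = f 0 + f 1 + f 2 + ∑ᶠ x, f (x + 3) := by
  obtain ⟨N, hN⟩ := hf.bddAbove
  have h1 : f.support ⊆ (Finset.range (N + 1 + 3) : Set ℕ) := by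
    intro x hx
    have := hN hx
    simp only [Finset.coe_range, Set.mem_Iio]
    omega
  have h2 : (Function.support fun x => f (x + 3)) ⊆ (Finset.range (N + 1) : Set ℕ) := by
    intro x hx
    have := hN (show x + 3 ∈ f.support from hx)
    simp only [Finset.coe_range, Set.mem_Iio]
    omega
  rw [finsum_eq_sum_of_support_subset _ h1, finsum_eq_sum_of_support_subset _ h2,
    Finset.sum_range_succ', Finset.sum_range_succ', Finset.sum_range_succ']
  simp only [Nat.add_assoc]
  norm_num
  ring

/-! ### bits -/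

theorem testBit_orL {α : Type} (l : List α) (f : α → ℕ) (n : ℕ) :
    (orL l f).testBit n = true ↔ ∃ x ∈ l, (f x).testBit n = true := by
  induction l with
  | nil => simp [orL]
  | cons x l ih =>
    have : orL (x :: l) f = f x ||| orL l f := rfl
    rw [this, Nat.testBit_or, Bool.or_eq_true, ih]
    simp

theorem allowed_cost {t : St} {q : Pat × ℕ} (h : q ∈ allowed t) : cost t q.1 = q.2 := by
  have : ∀ q ∈ allowed t, cost t q.1 = q.2 := by cases t <;> decide
  exact this q h

theorem mem_allowed {t : St} {p : Pat} (h : cost t p < 5) : (p, cost t p) ∈ allowed t := by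
  obtain ⟨a, b, c, d⟩ := p
  revert h
  cases t <;> cases a <;> cases b <;> cases c <;> cases d <;> decide

/-- total cost over the three inner letters -/
def cost3 (t : St × St × St) (k : Pat × Pat × Pat) : ℕ :=
  cost t.1 k.1 + cost t.2.1 k.2.1 + cost t.2.2 k.2.2

theorem b2n_lt (b : Bool) : b2n b < 2 := by cases b <;> decide

theorem b2n_inj {b c : Bool} (h : b2n b = b2n c) : b = c := by
  revert h; cases b <;> cases c <;> decide

theorem code_lt (E : E6) : code E < 64 := by
  unfold code
  have h1 := b2n_lt E.1.1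
  have h2 := b2n_lt E.1.2
  have h3 := b2n_lt E.2.1.1
  have h4 := b2n_lt E.2.1.2
  have h5 := b2n_lt E.2.2.1
  have h6 := b2n_lt E.2.2.2
  omega

theorem code_inj : Function.Injective code := by
  rintro ⟨⟨a, b⟩, ⟨c, d⟩, ⟨e, f⟩⟩ ⟨⟨a', b'⟩, ⟨c', d'⟩, ⟨e', f'⟩⟩ h
  simp only [code] at h
  have h1 := b2n_lt a
  have h2 := b2n_lt b
  have h3 := b2n_lt c
  have h4 := b2n_lt d
  have h5 := b2n_lt e
  have h6 := b2n_lt f
  have h1' := b2n_lt a'
  have h2' := b2n_lt b'
  have h3' := b2n_lt c'
  have h4' := b2n_lt d'
  have h5' := b2n_lt e'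
  have h6' := b2n_lt f'
  have k1 : b2n a = b2n a' := by omega
  have k2 : b2n b = b2n b' := by omega
  have k3 : b2n c = b2n c' := by omega
  have k4 : b2n d = b2n d' := by omega
  have k5 : b2n e = b2n e' := by omega
  have k6 : b2n f = b2n f' := by omega
  rw [b2n_inj k1, b2n_inj k2, b2n_inj k3, b2n_inj k4, b2n_inj k5, b2n_inj k6]

/-- the mask of a piece -/
theorem testBit_mask {P : Piece} (hP : Adm P) (t : St × St × St) (n : ℕ) :
    (mask P t).testBit n = true ↔ ∃ k g, conf P k = some g ∧ cost3 t k < 5 ∧
      n = if code g = 0 ∧ k ≠ zero3 then 400 else 64 * cost3 t k + code g := by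
  have hprune : ∀ p q r : Pat, (ends (look (p, q, zeroP)) P.1).isNone = true →
      conf P (p, q, r) = none := by
    intro p q r h
    rw [Option.isNone_iff_eq_none] at h
    by_contra hne
    obtain ⟨g, hg⟩ := Option.ne_none_iff_exists'.1 hne
    rw [conf_iff] at hg
    have h1 := hg.1
    rw [ends_iff hP.2.2.2.1] at h1
    have h2 : chainEnd (look (p, q, zeroP)) P.1 g.1.1 = some g.1.2 := by
      rw [← h1]
      apply chain_congr
      intro y hy
      have := hP.1 y hy
      match hy1 : y.1 with
      | 0 => rfl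
      | 1 => rfl
      | n + 2 => omega
    rw [← ends_iff hP.2.2.2.1 (g := (g.1.1, g.1.2)), h] at h2
    cases h2
  have hbits : ∀ (k : Pat × Pat × Pat) (c : ℕ), (bits P k c).testBit n = true ↔
      ∃ g, conf P k = some g ∧ c < 5 ∧
        n = if code g = 0 ∧ k ≠ zero3 then 400 else 64 * c + code g := by
    intro k c
    unfold bits
    cases hc : conf P k with
    | none => simp
    | some g =>
      simp only [Option.some.injEq, exists_eq_left']
      by_cases h5 : 5 ≤ c
      · have : Nat.ble 5 c = true := by rw [Nat.ble_eq]; exact h5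
        rw [if_pos this]
        simp only [Nat.zero_testBit, Bool.false_eq_true, false_iff]
        omega
      · have : ¬ Nat.ble 5 c = true := by rw [Nat.ble_eq]; exact h5
        rw [if_neg this]
        have hiff : (Nat.beq (code g) 0 && !(decide (k = zero3))) = true ↔
            (code g = 0 ∧ k ≠ zero3) := by
          simp
        by_cases hz : code g = 0 ∧ k ≠ zero3
        · rw [if_pos (hiff.2 hz), if_pos hz, Nat.testBit_two_pow]
          simp only [decide_eq_true_eq]
          constructor
          · intro h; exact ⟨by omega, h.symm⟩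
          · intro h; exact h.2.symm
        · rw [if_neg (fun h => hz (hiff.1 h)), if_neg hz, Nat.testBit_two_pow]
          simp only [decide_eq_true_eq]
          constructor
          · intro h; exact ⟨by omega, h.symm⟩
          · intro h; exact h.2.symm
  unfold mask
  rw [testBit_orL]
  simp only [testBit_orL]
  constructor
  · rintro ⟨x, hx, y, hy, h⟩
    split_ifs at h with hn
    · simp at h
    · rw [testBit_orL] at h
      obtain ⟨z, hz, h⟩ := h
      rw [hbits] at h
      obtain ⟨g, h1, h2, h3⟩ := h
      have e1 := allowed_cost hx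
      have e2 := allowed_cost hy
      have e3 := allowed_cost hz
      have e4 : cost3 t (x.1, y.1, z.1) = x.2 + y.2 + z.2 := by
        simp only [cost3, e1, e2, e3]
      exact ⟨(x.1, y.1, z.1), g, h1, by rw [e4]; exact h2, by rw [e4]; exact h3⟩
  · rintro ⟨⟨p, q, r⟩, g, h1, h2, h3⟩
    simp only [cost3] at h2 h3
    refine ⟨(p, cost t.1 p), mem_allowed (by omega), (q, cost t.2.1 q),
      mem_allowed (by omega), ?_⟩
    rw [if_neg, testBit_orL]
    · refine ⟨(r, cost t.2.2 r), mem_allowed (by omega), ?_⟩
      rw [hbits]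
      exact ⟨g, h1, h2, h3⟩
    · intro hn
      rw [hprune p q r hn] at h1
      cases h1

/-! ### the main decomposition -/

/-- the outer states that complete a key to a good state -/
def BB (U V W : List Sym) (n : ℕ) : Set (ℕ → St) :=
  {r | ∃ E, code E = n % 64 ∧ Outer U V W (fun x => act (r x)) E ∧
    n / 64 % 16 + ∑ᶠ x, bb (r x) = 14 ∧
    ∀ ρ E', Outer U V W ρ E' → (E' ≠ zero6 ∨ ρ ≠ zk) → ∀ j < 5,
      (n / 1024).testBit (64 * j + code E') = true → 5 ≤ j + ∑ᶠ x, cost (r x) (ρ x)}

theorem code_zero6 : code zero6 = 0 := rfl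

theorem code_eq_zero {E : E6} (h : code E = 0) : E = zero6 := code_inj (by rw [h, code_zero6])

theorem conf_zero {P : Piece} (hP : Adm P) {E : E6} (h : conf P zero3 = some E) : E = zero6 := by
  have hz : ∀ (S : List Sym) (a c : Bool), S ≠ [] → chainEnd (look zero3) S a = some c →
      a = false ∧ c = false := by
    have hl : ∀ n, look zero3 n = zeroP := by
      intro n
      match n with
      | 0 => rfl
      | 1 => rfl
      | 2 => rfl
      | n + 3 => rfl
    have hi : ∀ b, inn b zeroP = false := by intro b; cases b <;> rfl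
    have ho : ∀ b, out b zeroP = false := by intro b; cases b <;> rfl
    have h0 : ∀ (S : List Sym) (c : Bool), chainEnd (look zero3) S false = some c → c = false := by
      intro S
      induction S with
      | nil => intro c h; exact ((chain_nil _ _ _).1 h).symm
      | cons y S ih =>
        intro c h
        rw [chain_cons] at h
        rw [hl, ho] at h
        exact ih c h.2
    intro S a c hS h
    cases S with
    | nil => exact absurd rfl hS
    | cons y S =>
      rw [chain_cons, hl, hi, ho] at h
      exact ⟨h.1.symm, h0 _ _ h.2⟩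
  rw [conf_iff, ends_iff hP.2.2.2.1, ends_iff hP.2.2.2.2.1, ends_iff hP.2.2.2.2.2] at h
  obtain ⟨h1, h2, h3, -⟩ := h
  obtain ⟨⟨a, b⟩, ⟨c, d⟩, ⟨e, f⟩⟩ := E
  have k1 := hz _ _ _ hP.2.2.2.1 h1
  have k2 := hz _ _ _ hP.2.2.2.2.1 h2
  have k3 := hz _ _ _ hP.2.2.2.2.2 h3
  simp only at k1 k2 k3
  rw [k1.1, k1.2, k2.1, k2.2, k3.1, k3.2]
  rfl

theorem joinG_zero : joinG zero3 zk = zk := by
  funext n
  match n with
  | 0 => rfl
  | 1 => rfl
  | 2 => rfl
  | n + 3 => rfl

theorem joinG_inj {α : Type} {t t' : α × α × α} {r r' : ℕ → α} (h : joinG t r = joinG t' r') :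
    t = t' ∧ r = r' := by
  have h0 := congrFun h 0
  have h1 := congrFun h 1
  have h2 := congrFun h 2
  refine ⟨?_, ?_⟩
  · obtain ⟨a, b, c⟩ := t
    obtain ⟨a', b', c'⟩ := t'
    simp only [joinG] at h0 h1 h2
    rw [h0, h1, h2]
  · funext n
    exact congrFun h (n + 3)

theorem joinG_ne {k : Pat × Pat × Pat} {ρ : ℕ → Pat} (h : k ≠ zero3 ∨ ρ ≠ zk) :
    joinG k ρ ≠ zk := by
  intro hh
  rw [← joinG_zero] at hh
  have := joinG_inj hh
  rcases h with h | h
  · exact h this.1
  · exact h this.2

theorem outer_zero (U V W : List Sym) : Outer U V W zk zero6 := by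
  have h0 : ∀ S : List Sym, chainEnd zk S false = some false := by
    intro S
    induction S with
    | nil => rfl
    | cons y S ih =>
      rw [chain_cons]
      have : out y.2 (zk y.1) = false := by simp only [zk]; cases y.2 <;> rfl
      rw [this]
      refine ⟨?_, ih⟩
      simp only [zk]
      cases y.2 <;> rfl
  refine ⟨h0 U, h0 V, h0 W, fun x b _ => ?_⟩
  simp only [zk]
  cases b <;> exact ⟨rfl, rfl⟩

theorem bb3_lt (t : St × St × St) : bb t.1 + bb t.2.1 + bb t.2.2 < 16 := by
  have h1 := bb_le t.1
  have h2 := bb_le t.2.1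
  have h3 := bb_le t.2.2
  omega

theorem act_joinG (t : St × St × St) (r : ℕ → St) :
    (fun x => act (joinG t r x)) = joinG (act t.1, act t.2.1, act t.2.2) (fun x => act (r x)) := by
  funext n
  match n with
  | 0 => rfl
  | 1 => rfl
  | 2 => rfl
  | n + 3 => rfl

theorem GS_glue {P : Piece} (hP : Adm P) (U V W : List Sym) (t : St × St × St) (r : ℕ → St) :
    joinG t r ∈ GS (glue P U V W) ↔ ∃ n, keyOf P t = some n ∧ r ∈ BB U V W n := by
  have hfb : Cons (glue P U V W) (fun x => act (joinG t r x)) →
      ∑ᶠ x, bb (joinG t r x) = bb t.1 + bb t.2.1 + bb t.2.2 + ∑ᶠ x, bb (r x) := by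
    intro hc
    have := finsum_split (f := fun x => bb (joinG t r x))
      ((Finset.finite_toSet _).subset (supp_bb hc))
    exact this
  have hfc : ∀ k ρ, Cons (glue P U V W) (joinG k ρ) →
      ∑ᶠ x, cost (joinG t r x) (joinG k ρ x) = cost3 t k + ∑ᶠ x, cost (r x) (ρ x) := by
    intro k ρ hc
    have := finsum_split (f := fun x => cost (joinG t r x) (joinG k ρ x))
      ((Finset.finite_toSet _).subset (supp_cost (joinG t r) hc))
    exact this
  have hcond : (∀ κ : ℕ → Pat, Cons (glue P U V W) κ → κ ≠ zk →
      5 ≤ ∑ᶠ x, cost (joinG t r x) (κ x)) ↔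
      ¬ (mask P t).testBit 400 = true ∧
        ∀ ρ E', Outer U V W ρ E' → (E' ≠ zero6 ∨ ρ ≠ zk) → ∀ j < 5,
          (mask P t).testBit (64 * j + code E') = true → 5 ≤ j + ∑ᶠ x, cost (r x) (ρ x) := by
    constructor
    · intro H
      refine ⟨?_, ?_⟩
      · intro hb
        rw [testBit_mask hP] at hb
        obtain ⟨k, g, h1, h2, h3⟩ := hb
        have hg := code_lt g
        split_ifs at h3 with h4
        · have hg0 := code_eq_zero h4.1
          have hC : Cons (glue P U V W) (joinG k zk) :=
            (Cons_glue hP U V W k zk).2 ⟨g, h1, by rw [hg0]; exact outer_zero U V W⟩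
          have h5 := H _ hC (joinG_ne (Or.inl h4.2))
          rw [hfc _ _ hC] at h5
          have h6 : ∑ᶠ x, cost (r x) (zk x) = 0 := by
            have : ∀ x, cost (r x) (zk x) = 0 := fun x => cost_zero _
            simp only [this, finsum_zero]
          omega
        · omega
      · intro ρ E' hO hne j hj hb
        rw [testBit_mask hP] at hb
        obtain ⟨k, g, h1, h2, h3⟩ := hb
        have hg := code_lt g
        have hE := code_lt E'
        split_ifs at h3 with h4
        · omega
        · have hje : j = cost3 t k := by omega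
          have hce : code E' = code g := by omega
          have hgE : g = E' := code_inj hce.symm
          subst hgE
          have hC : Cons (glue P U V W) (joinG k ρ) :=
            (Cons_glue hP U V W k ρ).2 ⟨g, h1, hO⟩
          have h5 := H _ hC (joinG_ne (by
            rcases hne with h | h
            · left
              rintro rfl
              exact h (conf_zero hP h1)
            · exact Or.inr h))
          rw [hfc _ _ hC] at h5
          omega
    · rintro ⟨H1, H2⟩ κ hC hz
      obtain ⟨k, ρ, rfl⟩ : ∃ k ρ, κ = joinG k ρ := ⟨_, _, (joinG_surj κ).symm⟩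
      rw [hfc _ _ hC]
      rw [Cons_glue hP] at hC
      obtain ⟨E, h1, h2⟩ := hC
      by_cases hlt : cost3 t k < 5
      · by_cases hE : E ≠ zero6 ∨ ρ ≠ zk
        · apply H2 ρ E h2 hE _ hlt
          rw [testBit_mask hP]
          refine ⟨k, E, h1, hlt, ?_⟩
          rw [if_neg]
          rintro ⟨h3, h4⟩
          apply H1
          rw [testBit_mask hP]
          exact ⟨k, E, h1, hlt, by rw [if_pos ⟨h3, h4⟩]⟩
        · push Not at hE
          exfalso
          apply H1
          rw [testBit_mask hP]
          refine ⟨k, E, h1, hlt, ?_⟩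
          rw [if_pos]
          refine ⟨by rw [hE.1, code_zero6], ?_⟩
          rintro rfl
          apply hz
          rw [hE.2, joinG_zero]
      · omega
  simp only [GS, Set.mem_setOf_eq]
  constructor
  · rintro ⟨h1, h2, h3⟩
    rw [hcond] at h3
    rw [hfb h1] at h2
    rw [act_joinG, Cons_glue hP] at h1
    obtain ⟨E, h4, h5⟩ := h1
    refine ⟨_, by unfold keyOf; rw [h4]; simp only; rw [if_neg h3.1], ?_⟩
    have hE := code_lt E
    have hb := bb3_lt t
    refine ⟨E, by omega, h5, ?_, ?_⟩
    · have : (code E + 64 * (bb t.1 + bb t.2.1 + bb t.2.2) + 1024 * mask P t) / 64 % 16 =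
          bb t.1 + bb t.2.1 + bb t.2.2 := by omega
      rw [this]
      exact h2
    · have : (code E + 64 * (bb t.1 + bb t.2.1 + bb t.2.2) + 1024 * mask P t) / 1024 =
          mask P t := by omega
      rw [this]
      exact h3.2
  · rintro ⟨n, hn, hr⟩
    unfold keyOf at hn
    cases hc : conf P (act t.1, act t.2.1, act t.2.2) with
    | none => rw [hc] at hn; simp at hn
    | some g =>
      rw [hc] at hn
      simp only at hn
      by_cases hm : (mask P t).testBit 400 = true
      · rw [if_pos hm] at hn; cases hn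
      · rw [if_neg hm] at hn
        simp only [Option.some.injEq] at hn
        obtain ⟨E, h1, h2, h3, h4⟩ := hr
        have hE := code_lt g
        have hb := bb3_lt t
        have hgE : E = g := code_inj (by rw [h1, ← hn]; omega)
        have e1 : n / 64 % 16 = bb t.1 + bb t.2.1 + bb t.2.2 := by rw [← hn]; omega
        have e2 : n / 1024 = mask P t := by rw [← hn]; omega
        rw [e1] at h3
        rw [e2] at h4
        have hC : Cons (glue P U V W) (fun x => act (joinG t r x)) := by
          rw [act_joinG, Cons_glue hP]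
          exact ⟨g, hc, hgE ▸ h2⟩
        refine ⟨hC, ?_, hcond.2 ⟨hm, h4⟩⟩
        rw [hfb hC]
        exact h3

/-! ### counting -/

/-- weight of a key -/
noncomputable def G (U V W : List Sym) (n : ℕ) : ZMod 2 := ((BB U V W n).ncard : ZMod 2)

theorem sum_allSt {M : Type} [AddCommMonoid M] (f : St → M) :
    ∑ x, f x = (allSt.map f).sum := by
  have h : (Finset.univ : Finset St) = allSt.toFinset := by decide
  rw [h, List.sum_toFinset f (by decide)]

theorem sum_flatMap' {M α β : Type} [AddCommMonoid M] (l : List α) (f : α → List β) (g : β → M) :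
    ((l.flatMap f).map g).sum = (l.map fun x => ((f x).map g).sum).sum := by
  induction l with
  | nil => rfl
  | cons x l ih =>
    rw [List.flatMap_cons, List.map_append, List.sum_append, ih, List.map_cons, List.sum_cons]

theorem sum_triples {M : Type} [AddCommMonoid M] (f : St × St × St → M) :
    ∑ t, f t = (triples.map f).sum := by
  rw [Fintype.sum_prod_type, sum_allSt]
  unfold triples
  rw [sum_flatMap']
  refine congrArg List.sum (List.map_congr_left fun x _ => ?_)
  rw [Fintype.sum_prod_type, sum_allSt, sum_flatMap']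
  refine congrArg List.sum (List.map_congr_left fun y _ => ?_)
  rw [sum_allSt, List.map_map]
  rfl

theorem sum_filterMap {α : Type} (l : List α) (f : α → Option ℕ) (g : ℕ → ZMod 2) :
    (l.map fun t => ((f t).map g).getD 0).sum = ((l.filterMap f).map g).sum := by
  induction l with
  | nil => rfl
  | cons x l ih =>
    rw [List.map_cons, List.sum_cons, ih]
    cases h : f x with
    | none => simp [h]
    | some n => simp [h]

theorem Z_glue {P : Piece} (hP : Adm P) (U V W : List Sym) :
    Z (glue P U V W) = ((keys P).map (G U V W)).sum := by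
  have hfin := GS_finite (glue P U V W)
  have hft : ∀ t : St × St × St, Finite {r : ℕ → St | joinG t r ∈ GS (glue P U V W)} := by
    intro t
    have : {r : ℕ → St | joinG t r ∈ GS (glue P U V W)} = joinG t ⁻¹' (GS (glue P U V W)) := rfl
    rw [this]
    apply Set.Finite.preimage _ hfin
    intro r _ r' _ h
    exact (joinG_inj h).2
  have heq : (GS (glue P U V W)) ≃
      (Σ t : St × St × St, {r : ℕ → St | joinG t r ∈ GS (glue P U V W)}) :=
    { toFun := fun s => ⟨(s.1 0, s.1 1, s.1 2), ⟨fun n => s.1 (n + 3), by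
        show joinG (s.1 0, s.1 1, s.1 2) (fun n => s.1 (n + 3)) ∈ GS (glue P U V W)
        rw [joinG_surj]; exact s.2⟩⟩
      invFun := fun q => ⟨joinG q.1 q.2.1, q.2.2⟩
      left_inv := fun s => Subtype.ext (joinG_surj s.1)
      right_inv := fun q => rfl }
  have h1 : (GS (glue P U V W)).ncard =
      ∑ t : St × St × St, {r : ℕ → St | joinG t r ∈ GS (glue P U V W)}.ncard := by
    rw [← Nat.card_coe_set_eq, Nat.card_congr heq, Nat.card_sigma]
    rfl
  rw [Z, h1, Nat.cast_sum, sum_triples]
  unfold keys
  rw [← sum_filterMap]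
  congr 1
  apply List.map_congr_left
  intro t _
  cases hk : keyOf P t with
  | none =>
    have : {r : ℕ → St | joinG t r ∈ GS (glue P U V W)} = ∅ := by
      ext r
      simp only [Set.mem_setOf_eq, Set.mem_empty_iff_false, iff_false]
      rw [GS_glue hP, hk]
      simp
    rw [this]
    simp
  | some n =>
    have : {r : ℕ → St | joinG t r ∈ GS (glue P U V W)} = BB U V W n := by
      ext r
      simp only [Set.mem_setOf_eq]
      rw [GS_glue hP, hk]
      simp
    rw [this]
    simp [G]

theorem sum_toggle (g : ℕ → ZMod 2) (k : ℕ) (l : List ℕ) :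
    ((toggle k l).map g).sum = g k + (l.map g).sum := by
  unfold toggle
  split_ifs with h
  · have hk : k ∈ l := by simpa using h
    have := List.perm_cons_erase hk
    have h2 : (l.map g).sum = g k + ((l.erase k).map g).sum := by
      rw [(this.map g).sum_eq, List.map_cons, List.sum_cons]
    rw [h2, ← add_assoc, CharTwo.add_self_eq_zero, zero_add]
  · simp

theorem sum_reduce (g : ℕ → ZMod 2) (l : List ℕ) :
    ((reduce l).map g).sum = (l.map g).sum := by
  induction l with
  | nil => rfl
  | cons k l ih =>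
    have : reduce (k :: l) = toggle k (reduce l) := rfl
    rw [this, sum_toggle, ih, List.map_cons, List.sum_cons]

/-- pieces with the same keys mod 2 can be exchanged -/
theorem Z_chk {P Q : Piece} (hP : Adm P) (hQ : Adm Q) (h : chk P Q = true) (U V W : List Sym) :
    Z (glue P U V W) = Z (glue Q U V W) := by
  rw [Z_glue hP, Z_glue hQ]
  have h1 : reduce (keys P ++ keys Q) = [] := by
    unfold chk at h
    rwa [List.isEmpty_iff] at h
  have h2 := sum_reduce (G U V W) (keys P ++ keys Q)
  rw [h1, List.map_append, List.sum_append] at h2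
  simp only [List.map_nil, List.sum_nil] at h2
  exact CharTwo.add_eq_zero.1 h2.symm

end Pool.Agent.Helper67.Heptagon
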