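import Pool.Agent.Helper67.Heptagon.Dummy
import Pool.Agent.Helper67.Heptagon.Glue
import Pool.Agent.Helper67.Heptagon.Checks

/-!
# Invariance under the moves
-/

namespace Pool.Agent.Helper67.Heptagon

open St

/-- no occurrence of a letter -/
def Free (a : ℕ) (U : List Sym) : Prop := ∀ y ∈ U, y.1 ≠ a

theorem Free.append {a : ℕ} {U V : List Sym} (hU : Free a U) (hV : Free a V) :
    Free a (U ++ V) := by
  intro y hy
  rw [List.mem_append] at hy
  rcases hy with h | h
  · exact hU y h
  · exact hV y h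

theorem Free.not_mem {a : ℕ} {U : List Sym} (hU : Free a U) (b : Bool) : (a, b) ∉ U :=
  fun h => hU _ h rfl

theorem free_iff {a : ℕ} {U : List Sym} : Free a U ↔ a ∉ U.map Prod.fst := by
  simp only [Free, List.mem_map, not_exists, not_and]

theorem exists_perm {a b c : ℕ} (hab : a ≠ b) (hac : a ≠ c) (hbc : b ≠ c) :
    ∃ σ : Equiv.Perm ℕ, σ a = 0 ∧ σ b = 1 ∧ σ c = 2 := by
  let σ1 := Equiv.swap a 0
  let b1 := σ1 b
  let σ2 := Equiv.swap b1 1
  let c2 := σ2 (σ1 c)
  let σ3 := Equiv.swap c2 2
  have ha1 : σ1 a = 0 := Equiv.swap_apply_left a 0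
  have hb1 : b1 ≠ 0 := by
    intro h
    exact hab (σ1.injective (by rw [ha1]; exact h.symm))
  have ha2 : σ2 0 = 0 := Equiv.swap_apply_of_ne_of_ne hb1.symm (by norm_num)
  have hb2 : σ2 b1 = 1 := Equiv.swap_apply_left b1 1
  have hc0 : c2 ≠ 0 := by
    intro h
    have : σ2 (σ1 c) = σ2 (σ1 a) := by rw [ha1, ha2]; exact h
    exact hac (σ1.injective (σ2.injective this)).symm
  have hc1 : c2 ≠ 1 := by
    intro h
    have : σ2 (σ1 c) = σ2 (σ1 b) := by
      show c2 = σ2 b1
      rw [hb2]; exact h
    exact hbc (σ1.injective (σ2.injective this)).symm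
  refine ⟨(σ1.trans σ2).trans σ3, ?_, ?_, ?_⟩
  · show σ3 (σ2 (σ1 a)) = 0
    rw [ha1, ha2]
    exact Equiv.swap_apply_of_ne_of_ne hc0.symm (by norm_num)
  · show σ3 (σ2 b1) = 1
    rw [hb2]
    exact Equiv.swap_apply_of_ne_of_ne hc1.symm (by norm_num)
  · exact Equiv.swap_apply_left c2 2

/-- substitution of letters for codes -/
def sub (a b c : ℕ) : ℕ → ℕ
  | 0 => a
  | 1 => b
  | _ => c

/-- a segment with letters instead of codes -/
def seg (a b c : ℕ) (S : List Sym) : List Sym := S.map fun y => (sub a b c y.1, y.2)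

theorem seg_map {a b c : ℕ} {σ : Equiv.Perm ℕ} (ha : σ a = 0) (hb : σ b = 1) (hc : σ c = 2)
    {S : List Sym} (hS : ∀ y ∈ S, y.1 < 3) :
    (seg a b c S).map (fun y => (σ y.1, y.2)) = S := by
  unfold seg
  rw [List.map_map]
  conv_rhs => rw [← List.map_id S]
  apply List.map_congr_left
  rintro ⟨n, d⟩ hy
  have := hS _ hy
  simp only at this
  match n with
  | 0 => simp [sub, ha]
  | 1 => simp [sub, hb]
  | 2 => simp [sub, hc]
  | n + 3 => omega

theorem up_map {a b c : ℕ} {σ : Equiv.Perm ℕ} (ha : σ a = 0) (hb : σ b = 1) (hc : σ c = 2)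
    {U : List Sym} (h1 : Free a U) (h2 : Free b U) (h3 : Free c U) :
    U.map (fun y => (σ y.1, y.2)) = up (U.map fun y => (σ y.1 - 3, y.2)) := by
  unfold up
  rw [List.map_map]
  apply List.map_congr_left
  intro y hy
  have k0 : σ y.1 ≠ 0 := by rw [← ha]; exact fun h => h1 y hy (σ.injective h)
  have k1 : σ y.1 ≠ 1 := by rw [← hb]; exact fun h => h2 y hy (σ.injective h)
  have k2 : σ y.1 ≠ 2 := by rw [← hc]; exact fun h => h3 y hy (σ.injective h)
  simp only [Function.comp, Prod.mk.injEq, and_true]
  omega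

theorem Adm.lt {P : Piece} (hP : Adm P) : ∀ y ∈ P.1, y.1 < 3 :=
  fun y hy => (hP.1 y hy).trans (by norm_num)

theorem Z_swap {P Q : Piece} (hP : Adm P) (hQ : Adm Q) (h : chk P Q = true) {a b c : ℕ}
    (hab : a ≠ b) (hac : a ≠ c) (hbc : b ≠ c) {U V W : List Sym}
    (hU : Free a U ∧ Free b U ∧ Free c U) (hV : Free a V ∧ Free b V ∧ Free c V)
    (hW : Free a W ∧ Free b W ∧ Free c W) :
    Z (seg a b c P.1 ++ (U ++ (seg a b c P.2.1 ++ (V ++ (seg a b c P.2.2 ++ W))))) =
      Z (seg a b c Q.1 ++ (U ++ (seg a b c Q.2.1 ++ (V ++ (seg a b c Q.2.2 ++ W))))) := by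
  obtain ⟨σ, ha, hb, hc⟩ := exists_perm hab hac hbc
  rw [← Z_rename σ, ← Z_rename σ (seg a b c Q.1 ++ _)]
  simp only [List.map_append]
  rw [seg_map ha hb hc hP.lt, seg_map ha hb hc hP.2.1, seg_map ha hb hc hP.2.2.1,
    seg_map ha hb hc hQ.lt, seg_map ha hb hc hQ.2.1, seg_map ha hb hc hQ.2.2.1,
    up_map ha hb hc hU.1 hU.2.1 hU.2.2, up_map ha hb hc hV.1 hV.2.1 hV.2.2,
    up_map ha hb hc hW.1 hW.2.1 hW.2.2]
  exact Z_chk hP hQ h _ _ _

theorem adm1 : Adm pO1 := by
  refine ⟨by decide, by decide, by decide, by decide, by decide, by decide⟩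
theorem adm1' : Adm pO1' := by
  refine ⟨by decide, by decide, by decide, by decide, by decide, by decide⟩
theorem adm2a : Adm pO2a := by
  refine ⟨by decide, by decide, by decide, by decide, by decide, by decide⟩
theorem adm2b : Adm pO2b := by
  refine ⟨by decide, by decide, by decide, by decide, by decide, by decide⟩
theorem adm3 (x y z : Bool) : Adm (pO3 x y z) := by
  cases x <;> cases y <;> cases z <;>
    exact ⟨by decide, by decide, by decide, by decide, by decide, by decide⟩

theorem exists_fresh (U : List Sym) (F : List ℕ) : ∃ c, Free c U ∧ c ∉ F := by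
  obtain ⟨c, hc⟩ := Infinite.exists_notMem_finset (letters U ∪ F.toFinset)
  rw [Finset.mem_union, not_or] at hc
  refine ⟨c, ?_, by simpa using hc.2⟩
  intro y hy h
  have := not_mem_letters.1 hc.1 y.2
  apply this
  rw [← h]
  exact hy

/-- first move -/
theorem Z_om1 {a : ℕ} {U : List Sym} (ha : Free a U) :
    Z ((a, false) :: (a, true) :: U) = Z U := by
  obtain ⟨b, hb, hab⟩ := exists_fresh U [a]
  obtain ⟨c, hc, hac⟩ := exists_fresh U [a, b]
  simp only [List.mem_cons, List.not_mem_nil, or_false, not_or] at hab hac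
  have hab' : a ≠ b := fun h => hab h.symm
  have hac' : a ≠ c := fun h => hac.1 h.symm
  have hbc' : b ≠ c := fun h => hac.2 h.symm
  have h1 := Z_swap adm1 adm1' chk1 hab' hac' hbc' (U := []) (V := []) (W := U)
    ⟨by simp [Free], by simp [Free], by simp [Free]⟩
    ⟨by simp [Free], by simp [Free], by simp [Free]⟩ ⟨ha, hb, hc⟩
  simp only [seg, sub, pO1, pO1', List.map_cons, List.map_nil, List.nil_append,
    List.cons_append] at h1
  -- remove the dummy letters
  have h2 : Z ((a, false) :: (a, true) :: (b, false) :: (c, false) :: U) =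
      Z ((a, false) :: (a, true) :: U) := by
    have e1 := Z_dummy (a := b) (A := [(a, false), (a, true)]) (B := (c, false) :: U)
      (by intro d; simp [hab'.symm]) (by
        intro d h
        rw [List.mem_cons] at h
        rcases h with h | h
        · exact hbc' (congrArg Prod.fst h)
        · exact hb.not_mem d h)
    have e2 := Z_dummy (a := c) (A := [(a, false), (a, true)]) (B := U)
      (by intro d; simp [hac'.symm]) (fun d => hc.not_mem d)
    simp only [List.cons_append, List.nil_append] at e1 e2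
    rw [e1, e2]
  have h3 : Z ((a, false) :: (b, false) :: (c, false) :: U) = Z U := by
    rw [Z_dummy_cons, Z_dummy_cons, Z_dummy_cons]
    · exact fun d => hc.not_mem d
    · intro d h
      rw [List.mem_cons] at h
      rcases h with h | h
      · exact hbc' (congrArg Prod.fst h)
      · exact hb.not_mem d h
    · intro d h
      rw [List.mem_cons, List.mem_cons] at h
      rcases h with h | h | h
      · exact hab' (congrArg Prod.fst h)
      · exact hac' (congrArg Prod.fst h)
      · exact ha.not_mem d h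
  rw [← h2, h1, h3]

/-- second move, both versions -/
theorem Z_om2 {P : Piece} (hP : Adm P) (hchk : chk P pO1' = true) (hP3 : P.2.2 = [(2, false)])
    (hP2 : ∀ y ∈ P.1 ++ P.2.1, y.1 < 2)
    {a b : ℕ} (hab : a ≠ b) {U V : List Sym} (haU : Free a U) (hbU : Free b U)
    (haV : Free a V) (hbV : Free b V) :
    Z (seg a b 0 P.1 ++ (U ++ (seg a b 0 P.2.1 ++ V))) = Z (U ++ V) := by
  obtain ⟨c, hc, hac⟩ := exists_fresh (U ++ V) [a, b]
  simp only [List.mem_cons, List.not_mem_nil, or_false, not_or] at hac
  have hac' : a ≠ c := fun h => hac.1 h.symm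
  have hbc' : b ≠ c := fun h => hac.2 h.symm
  have hcU : Free c U := fun y hy => hc y (by simp [hy])
  have hcV : Free c V := fun y hy => hc y (by simp [hy])
  have h1 := Z_swap hP adm1' hchk hab hac' hbc' (U := U) (V := V) (W := [])
    ⟨haU, hbU, hcU⟩ ⟨haV, hbV, hcV⟩ ⟨by simp [Free], by simp [Free], by simp [Free]⟩
  have hseg : ∀ S : List Sym, (∀ y ∈ S, y.1 < 2) → seg a b c S = seg a b 0 S := by
    intro S hS
    unfold seg
    apply List.map_congr_left
    rintro ⟨n, d⟩ hy
    have := hS _ hy
    simp only at this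
    match n with
    | 0 => rfl
    | 1 => rfl
    | n + 2 => omega
  have hfree : ∀ S : List Sym, (∀ y ∈ S, y.1 < 2) → Free c (seg a b 0 S) := by
    intro S hS y hy
    unfold seg at hy
    rw [List.mem_map] at hy
    obtain ⟨⟨n, d⟩, hy1, rfl⟩ := hy
    have := hS _ hy1
    simp only at this
    match n with
    | 0 => exact hac'
    | 1 => exact hbc'
    | n + 2 => omega
  have hs1 : ∀ y ∈ P.1, y.1 < 2 := fun y hy => hP2 y (by simp [hy])
  have hs2 : ∀ y ∈ P.2.1, y.1 < 2 := fun y hy => hP2 y (by simp [hy])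
  rw [hP3, hseg _ hs1, hseg _ hs2] at h1
  have h2 : Z (seg a b 0 P.1 ++ (U ++ (seg a b 0 P.2.1 ++ (V ++ (seg a b c [(2, false)] ++ []))))) =
      Z (seg a b 0 P.1 ++ (U ++ (seg a b 0 P.2.1 ++ V))) := by
    have e1 := Z_dummy (a := c) (A := seg a b 0 P.1 ++ (U ++ (seg a b 0 P.2.1 ++ V))) (B := [])
      (fun d => ((hfree _ hs1).append (hcU.append ((hfree _ hs2).append hcV))).not_mem d)
      (by simp)
    simp only [List.append_nil, List.append_assoc] at e1 ⊢
    exact e1
  have h3 : Z (seg a b c pO1'.1 ++ (U ++ (seg a b c pO1'.2.1 ++ (V ++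
      (seg a b c pO1'.2.2 ++ []))))) = Z (U ++ V) := by
    simp only [seg, sub, pO1', List.map_cons, List.map_nil, List.nil_append,
      List.cons_append, List.append_nil]
    have fa : ∀ d, (a, d) ∉ U ++ (b, false) :: (V ++ [(c, false)]) := by
      intro d h
      simp only [List.mem_append, List.mem_cons, Prod.mk.injEq, List.not_mem_nil, or_false] at h
      rcases h with h | h | h | h
      · exact haU.not_mem d h
      · exact hab h.1
      · exact haV.not_mem d h
      · exact hac' h.1
    have fb : ∀ d, (b, d) ∉ V ++ [(c, false)] := by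
      intro d h
      simp only [List.mem_append, List.mem_cons, Prod.mk.injEq, List.not_mem_nil, or_false] at h
      rcases h with h | h
      · exact hbV.not_mem d h
      · exact hbc' h.1
    rw [Z_dummy_cons fa, Z_dummy (fun d => hbU.not_mem d) fb, ← List.append_assoc,
      Z_dummy (fun d => hc.not_mem d) (by simp), List.append_nil]
  rw [← h2, h1, h3]

/-- third move -/
theorem Z_om3 {a b c : ℕ} (hab : a ≠ b) (hac : a ≠ c) (hbc : b ≠ c) {U V W : List Sym}
    (hU : Free a U ∧ Free b U ∧ Free c U) (hV : Free a V ∧ Free b V ∧ Free c V)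
    (hW : Free a W ∧ Free b W ∧ Free c W) (p q r x y z : Bool) :
    Z ((if x then [(b, q), (a, p)] else [(a, p), (b, q)]) ++ (U ++
      ((if y then [(c, r), (a, !p)] else [(a, !p), (c, r)]) ++ (V ++
      ((if z then [(c, !r), (b, !q)] else [(b, !q), (c, !r)]) ++ W))))) =
    Z ((if !x then [(b, q), (a, p)] else [(a, p), (b, q)]) ++ (U ++
      ((if !y then [(c, r), (a, !p)] else [(a, !p), (c, r)]) ++ (V ++
      ((if !z then [(c, !r), (b, !q)] else [(b, !q), (c, !r)]) ++ W))))) := by
  let F : ℕ → Bool := fun n => if n = a then p else if n = b then q else if n = c then r else false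
  have hFa : F a = p := by simp [F]
  have hFb : F b = q := by simp [F, hab.symm]
  have hFc : F c = r := by simp [F, hac.symm, hbc.symm]
  have hfix : ∀ S : List Sym, Free a S ∧ Free b S ∧ Free c S → S.map (flipBy F) = S := by
    intro S hS
    conv_rhs => rw [← List.map_id S]
    apply List.map_congr_left
    intro y hy
    have : F y.1 = false := by
      simp [F, hS.1 y hy, hS.2.1 y hy, hS.2.2 y hy]
    simp [flipBy, this]
  have h2 : ∀ x y z, (if y = true then [(c, r), (a, !p)] else [(a, !p), (c, r)]).map (flipBy F) =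
      seg a b c (pO3 x y z).2.1 := by
    intro x y z
    cases y <;> simp [flipBy, hFa, hFc, seg, pO3, sub]
  have h3 : ∀ x y z, (if z = true then [(c, !r), (b, !q)] else [(b, !q), (c, !r)]).map
      (flipBy F) = seg a b c (pO3 x y z).2.2 := by
    intro x y z
    cases z <;> simp [flipBy, hFb, hFc, seg, pO3, sub]
  have h1' : ∀ x y z, (if x = true then [(b, q), (a, p)] else [(a, p), (b, q)]).map (flipBy F) =
      seg a b c (pO3 x y z).1 := by
    intro x y z
    cases x <;> simp [flipBy, hFa, hFb, seg, pO3, sub]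
  have key : ∀ x y z, chk (pO3 x y z) (pO3 (!x) (!y) (!z)) = true →
      Z ((if x then [(b, q), (a, p)] else [(a, p), (b, q)]) ++ (U ++
      ((if y then [(c, r), (a, !p)] else [(a, !p), (c, r)]) ++ (V ++
      ((if z then [(c, !r), (b, !q)] else [(b, !q), (c, !r)]) ++ W))))) =
      Z ((if !x then [(b, q), (a, p)] else [(a, p), (b, q)]) ++ (U ++
      ((if !y then [(c, r), (a, !p)] else [(a, !p), (c, r)]) ++ (V ++
      ((if !z then [(c, !r), (b, !q)] else [(b, !q), (c, !r)]) ++ W))))) := by
    intro x y z hk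
    rw [← Z_flip F, ← Z_flip F ((if (!x) = true then [(b, q), (a, p)] else [(a, p), (b, q)]) ++ _)]
    simp only [List.map_append]
    rw [hfix U hU, hfix V hV, hfix W hW, h1' x y z, h2 x y z, h3 x y z, h1' (!x) (!y) (!z),
      h2 (!x) (!y) (!z), h3 (!x) (!y) (!z)]
    exact Z_swap (adm3 _ _ _) (adm3 _ _ _) hk hab hac hbc hU hV hW
  rcases x with _ | _ <;> rcases y with _ | _ <;> rcases z with _ | _
  · exact key false false false chk3a
  · exact key false false true chk3b
  · exact key false true false chk3c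
  · exact (key true false false chk3d).symm
  · exact key true false false chk3d
  · exact (key false true false chk3c).symm
  · exact (key false false true chk3b).symm
  · exact (key false false false chk3a).symm

end Pool.Agent.Helper67.Heptagon
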