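import Mathlib
import Pool.Agent.Helper67.Heptagon.Check

/-!
# The mod 2 state sum of a marked word, and its elementary symmetries
-/

namespace Pool.Agent.Helper67.Heptagon

open St

instance : Fintype St := ⟨{e, s1, s2, b1, b2, b3, b4, i, u, h}, by intro x; cases x <;> decide⟩

/-! ### chains -/

theorem chainEnd_append (κ : ℕ → Pat) (S T : List Sym) (a : Bool) :
    chainEnd κ (S ++ T) a = (chainEnd κ S a).bind (chainEnd κ T) := by
  induction S generalizing a with
  | nil => rfl
  | cons y S ih =>
    simp only [List.cons_append, chainEnd]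
    split_ifs
    · exact ih _
    · rfl

theorem chain_append (κ : ℕ → Pat) (S T : List Sym) (a c : Bool) :
    chainEnd κ (S ++ T) a = some c ↔ ∃ b, chainEnd κ S a = some b ∧ chainEnd κ T b = some c := by
  rw [chainEnd_append]
  cases hx : chainEnd κ S a with
  | none => simp
  | some b => simp

theorem chain_cons (κ : ℕ → Pat) (y : Sym) (S : List Sym) (a c : Bool) :
    chainEnd κ (y :: S) a = some c ↔
      inn y.2 (κ y.1) = a ∧ chainEnd κ S (out y.2 (κ y.1)) = some c := by
  simp only [chainEnd]
  split_ifs with h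
  · simp [h]
  · simp [h]

theorem chain_nil (κ : ℕ → Pat) (a c : Bool) : chainEnd κ [] a = some c ↔ a = c := by
  simp [chainEnd]

theorem chain_map (κ κ' : ℕ → Pat) (f : Sym → Sym) (S : List Sym)
    (h : ∀ y ∈ S, inn (f y).2 (κ (f y).1) = inn y.2 (κ' y.1) ∧
      out (f y).2 (κ (f y).1) = out y.2 (κ' y.1)) (a : Bool) :
    chainEnd κ (S.map f) a = chainEnd κ' S a := by
  induction S generalizing a with
  | nil => rfl
  | cons y S ih =>
    have h1 := h y (by simp)
    have h2 := ih (fun z hz => h z (by simp [hz]))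
    simp only [List.map_cons, chainEnd, h1.1, h1.2, h2]

theorem chain_congr (κ κ' : ℕ → Pat) (S : List Sym) (h : ∀ y ∈ S, κ y.1 = κ' y.1) (a : Bool) :
    chainEnd κ S a = chainEnd κ' S a := by
  have := chain_map κ κ' id S (fun y hy => by simp [h y hy]) a
  simpa using this

/-- consistency of a pattern assignment along a cyclic marked word -/
def Cons (m : List Sym) (κ : ℕ → Pat) : Prop :=
  (∃ a, chainEnd κ m a = some a) ∧
    ∀ x b, (x, b) ∉ m → inn b (κ x) = false ∧ out b (κ x) = false

theorem Cons.rot {m n : List Sym} {κ : ℕ → Pat} (hc : Cons (m ++ n) κ) : Cons (n ++ m) κ := by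
  obtain ⟨⟨a, ha⟩, hb⟩ := hc
  refine ⟨?_, fun x b hx => hb x b ?_⟩
  · rw [chain_append] at ha
    obtain ⟨b, h1, h2⟩ := ha
    exact ⟨b, (chain_append _ _ _ _ _).2 ⟨a, h2, h1⟩⟩
  · simp only [List.mem_append] at hx ⊢
    tauto

theorem Cons_rot (m n : List Sym) (κ : ℕ → Pat) : Cons (m ++ n) κ ↔ Cons (n ++ m) κ :=
  ⟨Cons.rot, Cons.rot⟩

theorem pat_ext (p q : Pat) (h : ∀ b, inn b p = inn b q ∧ out b p = out b q) : p = q := by
  have h1 := h false
  have h2 := h true
  simp only [inn, out] at h1 h2
  obtain ⟨a, b, c, d⟩ := p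
  obtain ⟨a', b', c', d'⟩ := q
  simp_all

theorem Cons.zero {m : List Sym} {κ : ℕ → Pat} (hc : Cons m κ) {x : ℕ}
    (hx : ∀ b, (x, b) ∉ m) : κ x = zeroP := by
  apply pat_ext
  intro b
  have := hc.2 x b (hx b)
  rw [this.1, this.2]
  cases b <;> exact ⟨rfl, rfl⟩

/-! ### costs and the state sum -/

/-- cost of a pattern at a chord in a given state -/
def cost (t : St) (p : Pat) : ℕ := ((allowed t).lookup p).getD 5

/-- the zero pattern assignment -/
def zk : ℕ → Pat := fun _ => zeroP

/-- good states of a marked word -/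
def GS (m : List Sym) : Set (ℕ → St) :=
  {s | Cons m (fun x => act (s x)) ∧ ∑ᶠ x, bb (s x) = 14 ∧
    ∀ κ : ℕ → Pat, Cons m κ → κ ≠ zk → 5 ≤ ∑ᶠ x, cost (s x) (κ x)}

/-- the mod 2 state sum -/
noncomputable def Z (m : List Sym) : ZMod 2 := ((GS m).ncard : ZMod 2)

theorem act_eq_zero {t : St} (ht : act t = zeroP) : t = e := by
  revert ht; cases t <;> decide

theorem cost_zero (t : St) : cost t zeroP = 0 := by cases t <;> rfl

/-- the letters of a marked word -/
def letters (m : List Sym) : Finset ℕ := (m.map Prod.fst).toFinset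

theorem not_mem_letters {m : List Sym} {x : ℕ} : x ∉ letters m ↔ ∀ b, (x, b) ∉ m := by
  simp [letters]

theorem Cons.eq_e {m : List Sym} {s : ℕ → St} (hc : Cons m (fun x => act (s x))) {x : ℕ}
    (hx : x ∉ letters m) : s x = e :=
  act_eq_zero (hc.zero (not_mem_letters.1 hx))

theorem supp_bb {m : List Sym} {s : ℕ → St} (hc : Cons m (fun x => act (s x))) :
    (Function.support fun x => bb (s x)) ⊆ (letters m : Set ℕ) := by
  intro x hx
  by_contra h
  apply hx
  simp only []
  rw [hc.eq_e h]
  rfl

theorem supp_cost {m : List Sym} (s : ℕ → St) {κ : ℕ → Pat} (hc : Cons m κ) :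
    (Function.support fun x => cost (s x) (κ x)) ⊆ (letters m : Set ℕ) := by
  intro x hx
  by_contra h
  apply hx
  simp only []
  rw [hc.zero (not_mem_letters.1 h), cost_zero]

theorem finite_supp (F : Finset ℕ) : {s : ℕ → St | ∀ x, x ∉ F → s x = e}.Finite := by
  classical
  have : {s : ℕ → St | ∀ x, x ∉ F → s x = e} ⊆
      Set.range (fun (g : F → St) (x : ℕ) => if hx : x ∈ F then g ⟨x, hx⟩ else e) := by
    intro s hs
    refine ⟨fun x => s x, ?_⟩
    funext x
    by_cases hx : x ∈ F
    · simp [hx]
    · simp [hx, hs x hx]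
  exact (Set.finite_range _).subset this

theorem GS_finite (m : List Sym) : (GS m).Finite :=
  (finite_supp (letters m)).subset fun _ hs _ hx => hs.1.eq_e hx

theorem Z_rot (m n : List Sym) : Z (m ++ n) = Z (n ++ m) := by
  have : GS (m ++ n) = GS (n ++ m) := by
    ext s
    simp only [GS, Set.mem_setOf_eq, Cons_rot m n]
  rw [Z, Z, this]

theorem bb_le (t : St) : bb t ≤ 2 := by cases t <;> decide

theorem Z_small {m : List Sym} (hm : m.length ≤ 6) : Z m = 0 := by
  have : GS m = ∅ := by
    ext s
    simp only [Set.mem_empty_iff_false, iff_false]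
    intro hs
    have h1 := hs.2.1
    rw [finsum_eq_sum_of_support_subset _ (supp_bb hs.1)] at h1
    have h2 : ∑ x ∈ letters m, bb (s x) ≤ ∑ x ∈ letters m, 2 :=
      Finset.sum_le_sum fun x _ => bb_le _
    have h3 : (letters m).card ≤ m.length := by
      have := List.toFinset_card_le (m.map Prod.fst)
      simpa [letters] using this
    rw [Finset.sum_const, smul_eq_mul] at h2
    omega
  rw [Z, this]
  simp

/-- general symmetry principle -/
theorem Z_congr {m m' : List Sym} (Φ : (ℕ → St) → (ℕ → St)) (hΦ : Function.Bijective Φ)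
    (Ψ : (ℕ → Pat) → (ℕ → Pat)) (hΨ : Function.Bijective Ψ)
    (h1 : ∀ κ, Cons m' κ ↔ Cons m (Ψ κ))
    (h2 : ∀ s, (fun x => act (Φ s x)) = Ψ (fun x => act (s x)))
    (h3 : ∀ s, ∑ᶠ x, bb (Φ s x) = ∑ᶠ x, bb (s x))
    (h4 : ∀ s κ, ∑ᶠ x, cost (Φ s x) (Ψ κ x) = ∑ᶠ x, cost (s x) (κ x))
    (h5 : Ψ zk = zk) : Z m' = Z m := by
  have : GS m = Φ '' GS m' := by
    ext s
    obtain ⟨s, rfl⟩ := hΦ.2 s
    rw [hΦ.1.mem_set_image]
    simp only [GS, Set.mem_setOf_eq, h1, h2, h3]
    refine and_congr_right fun _ => and_congr_right fun _ => ?_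
    constructor
    · intro H κ hκ hz
      have := H (Ψ κ) hκ (fun h => hz (hΨ.1 (by rw [h, h5])))
      rwa [h4] at this
    · intro H κ hκ hz
      obtain ⟨κ, rfl⟩ := hΨ.2 κ
      rw [h4]
      refine H κ hκ (fun h => hz ?_)
      rw [h, h5]
  rw [Z, Z, this, Set.ncard_image_of_injective _ hΦ.1]

/-! ### renaming -/

theorem Z_rename (σ : Equiv.Perm ℕ) (m : List Sym) :
    Z (m.map fun y => (σ y.1, y.2)) = Z m := by
  refine Z_congr (fun s x => s (σ x)) ?_ (fun κ x => κ (σ x)) ?_ ?_ ?_ ?_ ?_ rfl
  · refine ⟨fun s s' h => ?_, fun s => ⟨fun x => s (σ.symm x), by simp⟩⟩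
    funext x
    have := congrFun h (σ.symm x)
    simpa using this
  · refine ⟨fun s s' h => ?_, fun s => ⟨fun x => s (σ.symm x), by simp⟩⟩
    funext x
    have := congrFun h (σ.symm x)
    simpa using this
  · intro κ
    unfold Cons
    have h1 : ∀ a, chainEnd κ (m.map fun y => (σ y.1, y.2)) a = chainEnd (fun x => κ (σ x)) m a :=
      chain_map κ (fun x => κ (σ x)) (fun y => (σ y.1, y.2)) m (fun y _ => ⟨rfl, rfl⟩)
    simp only [h1]
    refine and_congr_right fun _ => ?_
    constructor
    · intro H x b hx
      apply H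
      simpa using hx
    · intro H x b hx
      have := H (σ.symm x) b (by
        intro hc
        apply hx
        rw [List.mem_map]
        exact ⟨_, hc, by simp⟩)
      simpa using this
  · intro s; rfl
  · intro s
    exact finsum_comp_equiv σ (f := fun x => bb (s x))
  · intro s κ
    exact finsum_comp_equiv σ (f := fun x => cost (s x) (κ x))

/-! ### reversal -/

/-- exchange of in and out -/
def swp (p : Pat) : Pat := (p.2.2.1, p.2.2.2, p.1, p.2.1)

/-- exchange of in and out on states -/
def io : St → St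
  | e => e | s1 => s1 | s2 => s2 | b1 => b3 | b2 => b4 | b3 => b1 | b4 => b2
  | i => i | u => u | h => h

theorem swp_swp (p : Pat) : swp (swp p) = p := rfl
theorem io_io (t : St) : io (io t) = t := by cases t <;> rfl
theorem act_io (t : St) : act (io t) = swp (act t) := by cases t <;> rfl
theorem bb_io (t : St) : bb (io t) = bb t := by cases t <;> rfl
theorem cost_io (t : St) (p : Pat) : cost (io t) (swp p) = cost t p := by
  obtain ⟨a, b, c, d⟩ := p
  cases t <;> cases a <;> cases b <;> cases c <;> cases d <;> rfl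
theorem inn_swp (b : Bool) (p : Pat) : inn b (swp p) = out b p := by cases b <;> rfl
theorem out_swp (b : Bool) (p : Pat) : out b (swp p) = inn b p := by cases b <;> rfl

theorem chain_reverse (κ : ℕ → Pat) (S : List Sym) (a c : Bool) :
    chainEnd κ S.reverse a = some c ↔ chainEnd (fun x => swp (κ x)) S c = some a := by
  induction S generalizing c with
  | nil => simp [chainEnd, eq_comm]
  | cons y S ih =>
    rw [List.reverse_cons, chain_append, chain_cons]
    simp only [chain_cons, ih, inn_swp, out_swp, chain_nil]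
    constructor
    · rintro ⟨b, h1, h2, h3⟩
      exact ⟨h3, h2 ▸ h1⟩
    · rintro ⟨h1, h2⟩
      exact ⟨_, h2, rfl, h1⟩

theorem Z_reverse (m : List Sym) : Z m.reverse = Z m := by
  refine Z_congr (fun s x => io (s x)) ?_ (fun κ x => swp (κ x)) ?_ ?_ ?_ ?_ ?_ rfl
  · refine ⟨fun s s' h => ?_, fun s => ⟨fun x => io (s x), by simp [io_io]⟩⟩
    funext x
    have := congrArg io (congrFun h x)
    simpa [io_io] using this
  · refine ⟨fun s s' h => ?_, fun s => ⟨fun x => swp (s x), by simp [swp_swp]⟩⟩
    funext x
    have := congrArg swp (congrFun h x)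
    simpa only [swp_swp] using this
  · intro κ
    unfold Cons
    simp only [chain_reverse, List.mem_reverse, inn_swp, out_swp]
    refine and_congr Iff.rfl ?_
    constructor <;> intro H x b hx <;> exact (H x b hx).symm
  · intro s
    funext x
    exact act_io _
  · intro s
    simp only [bb_io]
  · intro s κ
    simp only [cost_io]

/-! ### exchange of the two occurrence marks -/

/-- exchange of the two occurrences -/
def pqs (p : Pat) : Pat := (p.2.1, p.1, p.2.2.2, p.2.2.1)

/-- exchange of the two occurrences on states -/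
def pq : St → St
  | e => e | s1 => s2 | s2 => s1 | b1 => b2 | b2 => b1 | b3 => b4 | b4 => b3
  | i => i | u => u | h => h

theorem pqs_pqs (p : Pat) : pqs (pqs p) = p := rfl
theorem pq_pq (t : St) : pq (pq t) = t := by cases t <;> rfl
theorem act_pq (t : St) : act (pq t) = pqs (act t) := by cases t <;> rfl
theorem bb_pq (t : St) : bb (pq t) = bb t := by cases t <;> rfl
theorem cost_pq (t : St) (p : Pat) : cost (pq t) (pqs p) = cost t p := by
  obtain ⟨a, b, c, d⟩ := p
  cases t <;> cases a <;> cases b <;> cases c <;> cases d <;> rfl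
theorem inn_pqs (b : Bool) (p : Pat) : inn b (pqs p) = inn (!b) p := by cases b <;> rfl
theorem out_pqs (b : Bool) (p : Pat) : out b (pqs p) = out (!b) p := by cases b <;> rfl

/-- exchange the marks of the letters selected by `F` -/
def flipBy (F : ℕ → Bool) (y : Sym) : Sym := (y.1, xor (F y.1) y.2)

theorem flipBy_flipBy (F : ℕ → Bool) (y : Sym) : flipBy F (flipBy F y) = y := by
  simp [flipBy]

theorem Z_flip (F : ℕ → Bool) (m : List Sym) : Z (m.map (flipBy F)) = Z m := by
  refine Z_congr (fun s x => if F x then pq (s x) else s x) ?_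
    (fun κ x => if F x then pqs (κ x) else κ x) ?_ ?_ ?_ ?_ ?_ ?_
  · apply Function.Involutive.bijective
    intro s
    funext x
    dsimp only
    cases F x <;> simp [pq_pq]
  · apply Function.Involutive.bijective
    intro s
    funext x
    dsimp only
    cases F x <;> simp [pqs_pqs]
  · intro κ
    unfold Cons
    have hi : ∀ x b, inn (xor (F x) b) (κ x) = inn b (if F x then pqs (κ x) else κ x) := by
      intro x b
      cases F x
      · simp
      · simp [inn_pqs]
    have ho : ∀ x b, out (xor (F x) b) (κ x) = out b (if F x then pqs (κ x) else κ x) := by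
      intro x b
      cases F x
      · simp
      · simp [out_pqs]
    have h1 : ∀ a, chainEnd κ (m.map (flipBy F)) a =
        chainEnd (fun x => if F x then pqs (κ x) else κ x) m a :=
      chain_map κ _ (flipBy F) m (fun y _ => ⟨hi _ _, ho _ _⟩)
    simp only [h1]
    refine and_congr_right fun _ => ?_
    constructor
    · intro H x b hx
      rw [← hi, ← ho]
      apply H
      intro hc
      apply hx
      rw [List.mem_map] at hc
      obtain ⟨y, hy, hyx⟩ := hc
      have : y = (x, b) := by
        rw [← flipBy_flipBy F y, hyx]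
        simp [flipBy]
      rwa [this] at hy
    · intro H x b hx
      have := H x (xor (F x) b) (by
        intro hc
        apply hx
        rw [List.mem_map]
        exact ⟨_, hc, by simp [flipBy]⟩)
      rw [← hi, ← ho] at this
      simpa using this
  · intro s
    funext x
    dsimp only
    cases F x <;> simp [act_pq]
  · intro s
    refine finsum_congr fun x => ?_
    cases F x <;> simp [bb_pq]
  · intro s κ
    refine finsum_congr fun x => ?_
    cases F x <;> simp [cost_pq]
  · funext x
    simp only [zk]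
    cases F x <;> rfl

end Pool.Agent.Helper67.Heptagon
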