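import Pool.Agent.Helper67.Heptagon.Words

/-!
# The state sum of the heptagon, and the invariant on equivalence classes
-/

namespace Pool.Agent.Helper67.Heptagon

open St

/-- cost at the third kind of chord -/
def ch (a b c d : Bool) : ℕ := cost h (a, b, c, d)

theorem girth : ∀ e0 e1 e2 e3 e4 e5 e6 e7 e8 e9 e10 e11 e12 e13 : Bool,
    (Nat.ble 5 (ch e0 e3 e1 e4 + ch e1 e12 e2 e13 + ch e2 e5 e3 e6 + ch e4 e7 e5 e8 +
      ch e6 e9 e7 e10 + ch e8 e11 e9 e12 + ch e10 e13 e11 e0) ||
      !(e0 || e1 || e2 || e3 || e4 || e5 || e6 || e7 || e8 || e9 || e10 || e11 || e12 || e13)) =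
      true := by
  decide +kernel

/-- the marked heptagon -/
def m7 : List Sym :=
  [(1, false), (7, false), (2, false), (1, true), (3, false), (2, true), (4, false), (3, true),
   (5, false), (4, true), (6, false), (5, true), (7, true), (6, true)]

/-- the only good state of the heptagon -/
def s7 (x : ℕ) : St := if 1 ≤ x ∧ x ≤ 7 then h else e

theorem letters7 : letters m7 = {1, 2, 3, 4, 5, 6, 7} := by decide

theorem pat_eta (p : Pat) : p = (inn false p, inn true p, out false p, out true p) := rfl

theorem bb_two {t : St} (ht : bb t = 2) : t = h := by revert ht; cases t <;> decide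

theorem mem7 {x : ℕ} (hx : 1 ≤ x ∧ x ≤ 7) (b : Bool) : (x, b) ∈ m7 := by
  obtain ⟨h1, h2⟩ := hx
  interval_cases x <;> cases b <;> decide

theorem s7_mem : s7 ∈ GS m7 := by
  have hact : ∀ x, act (s7 x) = if 1 ≤ x ∧ x ≤ 7 then (true, true, true, true) else zeroP := by
    intro x
    unfold s7
    split_ifs <;> rfl
  have hC : Cons m7 (fun x => act (s7 x)) := by
    refine ⟨⟨true, by decide⟩, ?_⟩
    intro x b hx
    have : ¬ (1 ≤ x ∧ x ≤ 7) := fun h => hx (mem7 h b)
    simp only [hact, if_neg this]
    cases b <;> exact ⟨rfl, rfl⟩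
  refine ⟨hC, ?_, ?_⟩
  · rw [finsum_eq_sum_of_support_subset _ (supp_bb hC), letters7]
    decide
  · intro κ hκ hz
    rw [finsum_eq_sum_of_support_subset _ (supp_cost s7 hκ), letters7]
    have hsum : ∑ x ∈ ({1, 2, 3, 4, 5, 6, 7} : Finset ℕ), cost (s7 x) (κ x) =
        cost h (κ 1) + cost h (κ 7) + cost h (κ 2) + cost h (κ 3) + cost h (κ 4) +
          cost h (κ 5) + cost h (κ 6) := by
      rw [Finset.sum_insert (by decide), Finset.sum_insert (by decide),
        Finset.sum_insert (by decide), Finset.sum_insert (by decide),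
        Finset.sum_insert (by decide), Finset.sum_insert (by decide), Finset.sum_singleton]
      have : s7 1 = h ∧ s7 2 = h ∧ s7 3 = h ∧ s7 4 = h ∧ s7 5 = h ∧ s7 6 = h ∧ s7 7 = h := by
        decide
      obtain ⟨k1, k2, k3, k4, k5, k6, k7⟩ := this
      rw [k1, k2, k3, k4, k5, k6, k7]
      ring
    rw [hsum]
    obtain ⟨⟨a, hc⟩, hab⟩ := hκ
    simp only [m7, chain_cons, chain_nil] at hc
    obtain ⟨e0, e1, e2, e3, e4, e5, e6, e7, e8, e9, e10, e11, e12, e13, e14⟩ := hc
    have q1 : κ 1 = (a, inn true (κ 1), out false (κ 1), out true (κ 1)) := by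
      rw [← e0]; rfl
    have q7 : κ 7 = (out false (κ 1), inn true (κ 7), out false (κ 7), out true (κ 7)) := by
      rw [← e1]; rfl
    have q2 : κ 2 = (out false (κ 7), inn true (κ 2), inn true (κ 1), out true (κ 2)) := by
      rw [← e2, e3]; rfl
    have q3 : κ 3 = (out true (κ 1), inn true (κ 3), inn true (κ 2), out true (κ 3)) := by
      rw [← e4, e5]; rfl
    have q4 : κ 4 = (out true (κ 2), inn true (κ 4), inn true (κ 3), out true (κ 4)) := by
      rw [← e6, e7]; rfl
    have q5 : κ 5 = (out true (κ 3), inn true (κ 5), inn true (κ 4), inn true (κ 7)) := by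
      rw [← e8, e9, e12]; rfl
    have q6 : κ 6 = (out true (κ 4), out true (κ 7), inn true (κ 5), a) := by
      rw [← e10, e11, ← e13, ← e14]; rfl
    have hg := girth a (out false (κ 1)) (out false (κ 7)) (inn true (κ 1)) (out true (κ 1))
      (inn true (κ 2)) (out true (κ 2)) (inn true (κ 3)) (out true (κ 3)) (inn true (κ 4))
      (out true (κ 4)) (inn true (κ 5)) (inn true (κ 7)) (out true (κ 7))
    rw [Bool.or_eq_true] at hg
    rcases hg with hg | hg
    · rw [Nat.ble_eq] at hg
      unfold ch at hg
      rw [← q1, ← q7, ← q2, ← q3, ← q4, ← q5, ← q6] at hg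
      exact hg
    · exfalso
      apply hz
      simp only [Bool.not_eq_true', Bool.or_eq_false_iff] at hg
      obtain ⟨⟨⟨⟨⟨⟨⟨⟨⟨⟨⟨⟨⟨g0, g1⟩, g2⟩, g3⟩, g4⟩, g5⟩, g6⟩, g7⟩, g8⟩, g9⟩, g10⟩, g11⟩, g12⟩, g13⟩ := hg
      have z1 : κ 1 = zeroP := by rw [q1, g0, g1, g3, g4]; rfl
      have z7 : κ 7 = zeroP := by rw [q7, g1, g2, g12, g13]; rfl
      have z2 : κ 2 = zeroP := by rw [q2, g2, g3, g5, g6]; rfl
      have z3 : κ 3 = zeroP := by rw [q3, g4, g5, g7, g8]; rfl
      have z4 : κ 4 = zeroP := by rw [q4, g6, g7, g9, g10]; rfl
      have z5 : κ 5 = zeroP := by rw [q5, g8, g9, g11, g12]; rfl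
      have z6 : κ 6 = zeroP := by rw [q6, g10, g11, g13, g0]; rfl
      funext x
      by_cases hx : 1 ≤ x ∧ x ≤ 7
      · obtain ⟨h1, h2⟩ := hx
        interval_cases x
        · exact z1
        · exact z2
        · exact z3
        · exact z4
        · exact z5
        · exact z6
        · exact z7
      · apply pat_ext
        intro b
        have hnm : (x, b) ∉ m7 := by
          intro hm
          apply hx
          have : x ∈ letters m7 := by
            by_contra hh
            exact not_mem_letters.1 hh b hm
          rw [letters7] at this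
          simp only [Finset.mem_insert, Finset.mem_singleton] at this
          omega
        have := hab x b hnm
        rw [this.1, this.2]
        simp only [zk]
        cases b <;> exact ⟨rfl, rfl⟩

theorem GS7 : GS m7 = {s7} := by
  ext s
  rw [Set.mem_singleton_iff]
  constructor
  · intro hs
    have h1 := hs.2.1
    rw [finsum_eq_sum_of_support_subset _ (supp_bb hs.1), letters7,
      Finset.sum_insert (by decide), Finset.sum_insert (by decide),
        Finset.sum_insert (by decide), Finset.sum_insert (by decide),
        Finset.sum_insert (by decide), Finset.sum_insert (by decide), Finset.sum_singleton] at h1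
    have b1 := bb_le (s 1)
    have b2 := bb_le (s 2)
    have b3 := bb_le (s 3)
    have b4 := bb_le (s 4)
    have b5 := bb_le (s 5)
    have b6 := bb_le (s 6)
    have b7 := bb_le (s 7)
    funext x
    by_cases hx : 1 ≤ x ∧ x ≤ 7
    · have : s7 x = h := by unfold s7; rw [if_pos hx]
      rw [this]
      apply bb_two
      obtain ⟨h2, h3⟩ := hx
      interval_cases x <;> omega
    · have : s7 x = e := by unfold s7; rw [if_neg hx]
      rw [this]
      apply hs.1.eq_e
      rw [letters7]
      simp only [Finset.mem_insert, Finset.mem_singleton]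
      omega
  · rintro rfl
    exact s7_mem

theorem Z7 : Z m7 = 1 := by
  rw [Z, GS7, Set.ncard_singleton]
  norm_num

theorem R7 : R heptagon := ⟨m7, by decide, by decide, Z7⟩

/-- the invariant is preserved by all moves -/
theorem R_move {v w : List ℕ} (hv : IsGauss v) (hw : IsGauss w) (hm : Move v w) : R v ↔ R w := by
  cases hm with
  | rotate U V => exact ⟨R_rot, R_rot⟩
  | reverse =>
    refine ⟨R_rev, fun h => ?_⟩
    have := R_rev h
    rwa [List.reverse_reverse] at this
  | rename σ =>
    refine ⟨R_ren σ, fun h => ?_⟩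
    have := R_ren σ.symm h
    rw [List.map_map] at this
    simpa using this
  | omega1 a =>
    apply R_om1
    intro ha
    have h1 := hw a ha
    have h2 := hv a (by simp)
    simp only [List.count_append, List.count_cons_self, List.count_nil] at h2
    omega
  | omega2 a b U V hab =>
    have hca : (U ++ V).count a = 0 := by
      have h2 := hv a (by simp)
      simp only [List.count_append, List.count_cons_self, List.count_nil,
        List.count_cons_of_ne hab.symm] at h2 ⊢
      omega
    have hcb : (U ++ V).count b = 0 := by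
      have h2 := hv b (by simp)
      simp only [List.count_append, List.count_cons_self, List.count_nil,
        List.count_cons_of_ne hab] at h2 ⊢
      omega
    rw [List.count_eq_zero, List.mem_append, not_or] at hca hcb
    exact R_om2 hab hca.1 hcb.1 hca.2 hcb.2
  | omega2' a b U V hab =>
    have hca : (U ++ V).count a = 0 := by
      have h2 := hv a (by simp)
      simp only [List.count_append, List.count_cons_self, List.count_nil,
        List.count_cons_of_ne hab.symm] at h2 ⊢
      omega
    have hcb : (U ++ V).count b = 0 := by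
      have h2 := hv b (by simp)
      simp only [List.count_append, List.count_cons_self, List.count_nil,
        List.count_cons_of_ne hab] at h2 ⊢
      omega
    rw [List.count_eq_zero, List.mem_append, not_or] at hca hcb
    exact R_om2' hab hca.1 hcb.1 hca.2 hcb.2
  | omega3 a b c P Q R' U V W hab hac hbc hP hQ hR =>
    obtain ⟨x, rfl⟩ : ∃ x : Bool, P = if x then [b, a] else [a, b] := by
      rcases hP with h | h
      · exact ⟨false, h⟩
      · exact ⟨true, h⟩
    obtain ⟨y, rfl⟩ : ∃ y : Bool, Q = if y then [c, a] else [a, c] := by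
      rcases hQ with h | h
      · exact ⟨false, h⟩
      · exact ⟨true, h⟩
    obtain ⟨z, rfl⟩ : ∃ z : Bool, R' = if z then [c, b] else [b, c] := by
      rcases hR with h | h
      · exact ⟨false, h⟩
      · exact ⟨true, h⟩
    have hxy : ∀ (x : Bool) (a b : ℕ), (if x = true then [b, a] else [a, b]).reverse =
        if (!x) = true then [b, a] else [a, b] := by
      intro x a b
      cases x <;> rfl
    have hcnt : ∀ n, n = a ∨ n = b ∨ n = c → U.count n = 0 ∧ V.count n = 0 ∧ W.count n = 0 := by
      intro n hn
      have hmem : n ∈ ((if x = true then [b, a] else [a, b]) ++ U ++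
          (if y = true then [c, a] else [a, c]) ++ V ++
          (if z = true then [c, b] else [b, c]) ++ W) := by
        cases x <;> cases y <;> cases z <;> rcases hn with rfl | rfl | rfl <;> simp
      have h2 := hv n hmem
      simp only [List.count_append] at h2
      have hx2 : ∀ (x : Bool) (a b : ℕ), (if x = true then [b, a] else [a, b]).count n =
          (if a = n then 1 else 0) + (if b = n then 1 else 0) := by
        intro x a b
        cases x <;> simp [List.count_cons] <;> ring
      rw [hx2, hx2, hx2] at h2
      rcases hn with rfl | rfl | rfl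
      · simp only [if_true, hab.symm, hac.symm, if_false] at h2
        omega
      · simp only [if_true, hab, hbc.symm, if_false] at h2
        omega
      · simp only [if_true, hac, hbc, if_false] at h2
        omega
    have ha := hcnt a (Or.inl rfl)
    have hb := hcnt b (Or.inr (Or.inl rfl))
    have hc := hcnt c (Or.inr (Or.inr rfl))
    simp only [List.count_eq_zero] at ha hb hc
    rw [hxy, hxy, hxy]
    simp only [List.append_assoc]
    constructor
    · exact R_om3 hab hac hbc ⟨ha.1, hb.1, hc.1⟩ ⟨ha.2.1, hb.2.1, hc.2.1⟩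
        ⟨ha.2.2, hb.2.2, hc.2.2⟩ x y z
    · intro h
      have := R_om3 hab hac hbc ⟨ha.1, hb.1, hc.1⟩ ⟨ha.2.1, hb.2.1, hc.2.1⟩
        ⟨ha.2.2, hb.2.2, hc.2.2⟩ (!x) (!y) (!z) h
      simpa only [Bool.not_not] using this

theorem R_equiv {v w : List ℕ} (h : FreeEquiv v w) : R v ↔ R w := by
  unfold FreeEquiv at h
  induction h with
  | rel v w h => exact R_move h.1 h.2.1 h.2.2
  | refl v => exact Iff.rfl
  | symm v w _ ih => exact ih.symm
  | trans u v w _ _ ih1 ih2 => exact ih1.trans ih2

theorem gauss_equiv {v w : List ℕ} (h : FreeEquiv v w) : IsGauss v ↔ IsGauss w := by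
  unfold FreeEquiv at h
  induction h with
  | rel v w h => exact ⟨fun _ => h.2.1, fun _ => h.1⟩
  | refl v => exact Iff.rfl
  | symm v w _ ih => exact ih.symm
  | trans u v w _ _ ih1 ih2 => exact ih1.trans ih2

/-- a Gauss word with fewer than seven chords has vanishing invariant -/
theorem R_length {w : List ℕ} (hw : IsGauss w) (h : R w) : 14 ≤ w.length := by
  obtain ⟨m, rfl, h2, h3⟩ := h
  by_contra hlt
  have hlen : 2 * (letters m).card = (m.map Prod.fst).length := by
    rw [← List.sum_toFinset_count_eq_length, Finset.sum_congr rfl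
      (fun x hx => hw x (List.mem_toFinset.1 hx)), Finset.sum_const, smul_eq_mul, mul_comm]
    rfl
  have hempty : GS m = ∅ := by
    ext s
    simp only [Set.mem_empty_iff_false, iff_false]
    intro hs
    have h1 := hs.2.1
    rw [finsum_eq_sum_of_support_subset _ (supp_bb hs.1)] at h1
    have h4 : ∑ x ∈ letters m, bb (s x) ≤ ∑ x ∈ letters m, 2 :=
      Finset.sum_le_sum fun x _ => bb_le _
    rw [Finset.sum_const, smul_eq_mul] at h4
    omega
  rw [Z, hempty] at h3
  simp at h3

theorem heptagon_gauss : IsGauss heptagon := by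
  unfold IsGauss
  decide

/-- every Gauss word equivalent to the heptagon has at least seven chords -/
theorem seven_chords {w : List ℕ} (h : FreeEquiv heptagon w) : 14 ≤ w.length :=
  R_length ((gauss_equiv h).1 heptagon_gauss) ((R_equiv h).1 R7)

end Pool.Agent.Helper67.Heptagon
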