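import Pool.Agent.Helper67.Heptagon.Moves
import Pool.Agent.Helper67.Heptagon.Defs

/-!
# The invariant on words
-/

namespace Pool.Agent.Helper67.Heptagon

/-- some marking of the word has state sum 1 -/
def R (w : List ℕ) : Prop := ∃ m : List Sym, m.map Prod.fst = w ∧ m.Nodup ∧ Z m = 1

theorem R_rot {U V : List ℕ} (h : R (U ++ V)) : R (V ++ U) := by
  obtain ⟨m, h1, h2, h3⟩ := h
  rw [List.map_eq_append_iff] at h1
  obtain ⟨m1, m2, rfl, rfl, rfl⟩ := h1
  refine ⟨m2 ++ m1, by simp, ?_, by rw [Z_rot]; exact h3⟩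
  exact (List.perm_append_comm.nodup_iff).1 h2

theorem R_rev {w : List ℕ} (h : R w) : R w.reverse := by
  obtain ⟨m, rfl, h2, h3⟩ := h
  exact ⟨m.reverse, by simp, List.nodup_reverse.2 h2, by rw [Z_reverse]; exact h3⟩

theorem R_ren (σ : Equiv.Perm ℕ) {w : List ℕ} (h : R w) : R (w.map σ) := by
  obtain ⟨m, rfl, h2, h3⟩ := h
  refine ⟨m.map fun y => (σ y.1, y.2), by simp, ?_, by rw [Z_rename]; exact h3⟩
  apply h2.map
  rintro ⟨a, b⟩ ⟨c, d⟩ h
  simp only [Prod.mk.injEq, EmbeddingLike.apply_eq_iff_eq] at h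
  rw [h.1, h.2]

/-- pull a marking back through one letter -/
theorem map_cons_eq {m : List Sym} {a : ℕ} {w : List ℕ} (h : m.map Prod.fst = a :: w) :
    ∃ p m', m = (a, p) :: m' ∧ m'.map Prod.fst = w := by
  cases m with
  | nil => simp at h
  | cons y m' =>
    rw [List.map_cons, List.cons.injEq] at h
    obtain ⟨h1, h2⟩ := h
    exact ⟨y.2, m', by rw [← h1], h2⟩

theorem Free.of_map {a : ℕ} {m : List Sym} {U : List ℕ} (h : m.map Prod.fst = U) (ha : a ∉ U) :
    Free a m := by
  rw [free_iff, h]
  exact ha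

theorem Nodup.not_eq {p q : Bool} (h : p ≠ q) : q = !p := by
  cases p <;> cases q <;> simp_all

theorem R_om1 {a : ℕ} {U : List ℕ} (ha : a ∉ U) : R ([a, a] ++ U) ↔ R U := by
  constructor
  · rintro ⟨m, h1, h2, h3⟩
    simp only [List.cons_append, List.nil_append] at h1
    obtain ⟨p, m, rfl, k1⟩ := map_cons_eq h1
    obtain ⟨q, m, rfl, k2⟩ := map_cons_eq k1
    have hf : Free a m := Free.of_map k2 ha
    have hpq : q = !p := by
      apply Nodup.not_eq
      rintro rfl
      simp at h2
    subst hpq
    refine ⟨m, k2, ?_, ?_⟩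
    · rw [List.nodup_cons, List.nodup_cons] at h2
      exact h2.2.2
    · rw [← h3, ← Z_flip (fun n => if n = a then p else false) ((a, p) :: (a, !p) :: m)]
      have hm : m.map (flipBy fun n => if n = a then p else false) = m := by
        conv_rhs => rw [← List.map_id m]
        apply List.map_congr_left
        intro y hy
        simp [flipBy, hf y hy]
      rw [List.map_cons, List.map_cons, hm]
      have e1 : flipBy (fun n => if n = a then p else false) (a, p) = (a, false) := by
        simp [flipBy]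
      have e2 : flipBy (fun n => if n = a then p else false) (a, !p) = (a, true) := by
        simp [flipBy]
      rw [e1, e2, Z_om1 hf]
  · rintro ⟨m, h1, h2, h3⟩
    have hf : Free a m := Free.of_map h1 ha
    refine ⟨(a, false) :: (a, true) :: m, by simp [h1], ?_, by rw [Z_om1 hf]; exact h3⟩
    rw [List.nodup_cons, List.nodup_cons]
    refine ⟨?_, hf.not_mem true, h2⟩
    rw [List.mem_cons]
    rintro (h | h)
    · simp at h
    · exact hf.not_mem false h

theorem nodup_om2 {a b : ℕ} {P Q U V : List Sym} (hU : ∀ y ∈ P ++ Q, y ∉ U ++ V)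
    (hPQ : (P ++ Q).Nodup) (hUV : (U ++ V).Nodup) : (P ++ (U ++ (Q ++ V))).Nodup := by
  have h : (P ++ (U ++ (Q ++ V))).Perm ((P ++ Q) ++ (U ++ V)) := by
    rw [List.append_assoc]
    refine List.Perm.append_left _ ?_
    rw [← List.append_assoc, ← List.append_assoc]
    exact List.perm_append_comm.append_right _
  rw [h.nodup_iff, List.nodup_append]
  exact ⟨hPQ, hUV, fun y hy z hz hyz => hU y hy (hyz ▸ hz)⟩

theorem R_om2 {a b : ℕ} (hab : a ≠ b) {U V : List ℕ} (haU : a ∉ U) (hbU : b ∉ U) (haV : a ∉ V)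
    (hbV : b ∉ V) : R ([a, b] ++ U ++ [b, a] ++ V) ↔ R (U ++ V) := by
  constructor
  · rintro ⟨m, h1, h2, h3⟩
    simp only [List.cons_append, List.nil_append, List.append_assoc] at h1
    obtain ⟨p, m, rfl, k1⟩ := map_cons_eq h1
    obtain ⟨q, m, rfl, k2⟩ := map_cons_eq k1
    rw [List.map_eq_append_iff] at k2
    obtain ⟨mU, m, rfl, hU, k3⟩ := k2
    obtain ⟨q', m, rfl, k4⟩ := map_cons_eq k3
    obtain ⟨p', mV, rfl, hV⟩ := map_cons_eq k4
    have fa : Free a mU := Free.of_map hU haU
    have fb : Free b mU := Free.of_map hU hbU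
    have fa' : Free a mV := Free.of_map hV haV
    have fb' : Free b mV := Free.of_map hV hbV
    have hq : q' = !q := by
      apply Nodup.not_eq
      rintro rfl
      rw [List.nodup_cons, List.nodup_cons] at h2
      exact h2.2.1 (by simp)
    have hp : p' = !p := by
      apply Nodup.not_eq
      rintro rfl
      rw [List.nodup_cons] at h2
      exact h2.1 (by simp)
    subst hq hp
    refine ⟨mU ++ mV, by simp [hU, hV], ?_, ?_⟩
    · refine List.Sublist.nodup ?_ h2
      refine List.Sublist.cons _ (List.Sublist.cons _ ?_)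
      exact List.Sublist.append_left (List.Sublist.cons _ (List.Sublist.cons _
        (List.Sublist.refl _))) _
    · let F : ℕ → Bool := fun n => if n = a then p else if n = b then q else false
      have hFa : F a = p := by simp [F]
      have hFb : F b = q := by simp [F, hab.symm]
      have hfix : ∀ S : List Sym, Free a S → Free b S → S.map (flipBy F) = S := by
        intro S h1 h2
        conv_rhs => rw [← List.map_id S]
        apply List.map_congr_left
        intro y hy
        simp [flipBy, F, h1 y hy, h2 y hy]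
      have hz := Z_om2 adm2a chk2a rfl (by decide) hab fa fb fa' fb'
      rw [← h3, ← Z_flip F ((a, p) :: _), ← hz]
      simp only [List.map_cons, List.map_append, hfix mU fa fb, hfix mV fa' fb', flipBy, hFa, hFb,
        seg, sub, pO2a, List.map_nil, List.cons_append, List.nil_append]
      simp
  · rintro ⟨m, h1, h2, h3⟩
    rw [List.map_eq_append_iff] at h1
    obtain ⟨mU, mV, rfl, hU, hV⟩ := h1
    have fa : Free a mU := Free.of_map hU haU
    have fb : Free b mU := Free.of_map hU hbU
    have fa' : Free a mV := Free.of_map hV haV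
    have fb' : Free b mV := Free.of_map hV hbV
    have hz := Z_om2 adm2a chk2a rfl (by decide) hab fa fb fa' fb'
    refine ⟨_, ?_, ?_, hz.trans h3⟩
    · simp [seg, sub, pO2a, hU, hV]
    · apply nodup_om2 (a := a) (b := b) _ _ h2
      · intro y hy hy2
        simp only [seg, sub, pO2a, List.map_cons, List.map_nil, List.mem_append, List.mem_cons,
          List.not_mem_nil, or_false] at hy
        rw [List.mem_append] at hy2
        rcases hy with (rfl | rfl) | (rfl | rfl) <;> rcases hy2 with h | h
        · exact fa.not_mem _ h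
        · exact fa'.not_mem _ h
        · exact fb.not_mem _ h
        · exact fb'.not_mem _ h
        · exact fb.not_mem _ h
        · exact fb'.not_mem _ h
        · exact fa.not_mem _ h
        · exact fa'.not_mem _ h
      · simp [seg, sub, pO2a, hab, hab.symm]

theorem R_om2' {a b : ℕ} (hab : a ≠ b) {U V : List ℕ} (haU : a ∉ U) (hbU : b ∉ U) (haV : a ∉ V)
    (hbV : b ∉ V) : R ([a, b] ++ U ++ [a, b] ++ V) ↔ R (U ++ V) := by
  constructor
  · rintro ⟨m, h1, h2, h3⟩
    simp only [List.cons_append, List.nil_append, List.append_assoc] at h1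
    obtain ⟨p, m, rfl, k1⟩ := map_cons_eq h1
    obtain ⟨q, m, rfl, k2⟩ := map_cons_eq k1
    rw [List.map_eq_append_iff] at k2
    obtain ⟨mU, m, rfl, hU, k3⟩ := k2
    obtain ⟨p', m, rfl, k4⟩ := map_cons_eq k3
    obtain ⟨q', mV, rfl, hV⟩ := map_cons_eq k4
    have fa : Free a mU := Free.of_map hU haU
    have fb : Free b mU := Free.of_map hU hbU
    have fa' : Free a mV := Free.of_map hV haV
    have fb' : Free b mV := Free.of_map hV hbV
    have hq : q' = !q := by
      apply Nodup.not_eq
      rintro rfl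
      rw [List.nodup_cons, List.nodup_cons] at h2
      exact h2.2.1 (by simp)
    have hp : p' = !p := by
      apply Nodup.not_eq
      rintro rfl
      rw [List.nodup_cons] at h2
      exact h2.1 (by simp)
    subst hq hp
    refine ⟨mU ++ mV, by simp [hU, hV], ?_, ?_⟩
    · refine List.Sublist.nodup ?_ h2
      refine List.Sublist.cons _ (List.Sublist.cons _ ?_)
      exact List.Sublist.append_left (List.Sublist.cons _ (List.Sublist.cons _
        (List.Sublist.refl _))) _
    · let F : ℕ → Bool := fun n => if n = a then p else if n = b then q else false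
      have hFa : F a = p := by simp [F]
      have hFb : F b = q := by simp [F, hab.symm]
      have hfix : ∀ S : List Sym, Free a S → Free b S → S.map (flipBy F) = S := by
        intro S h1 h2
        conv_rhs => rw [← List.map_id S]
        apply List.map_congr_left
        intro y hy
        simp [flipBy, F, h1 y hy, h2 y hy]
      have hz := Z_om2 adm2b chk2b rfl (by decide) hab fa fb fa' fb'
      rw [← h3, ← Z_flip F ((a, p) :: _), ← hz]
      simp only [List.map_cons, List.map_append, hfix mU fa fb, hfix mV fa' fb', flipBy, hFa, hFb,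
        seg, sub, pO2b, List.map_nil, List.cons_append, List.nil_append]
      simp
  · rintro ⟨m, h1, h2, h3⟩
    rw [List.map_eq_append_iff] at h1
    obtain ⟨mU, mV, rfl, hU, hV⟩ := h1
    have fa : Free a mU := Free.of_map hU haU
    have fb : Free b mU := Free.of_map hU hbU
    have fa' : Free a mV := Free.of_map hV haV
    have fb' : Free b mV := Free.of_map hV hbV
    have hz := Z_om2 adm2b chk2b rfl (by decide) hab fa fb fa' fb'
    refine ⟨_, ?_, ?_, hz.trans h3⟩
    · simp [seg, sub, pO2b, hU, hV]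
    · apply nodup_om2 (a := a) (b := b) _ _ h2
      · intro y hy hy2
        simp only [seg, sub, pO2b, List.map_cons, List.map_nil, List.mem_append, List.mem_cons,
          List.not_mem_nil, or_false] at hy
        rw [List.mem_append] at hy2
        rcases hy with (rfl | rfl) | (rfl | rfl) <;> rcases hy2 with h | h
        · exact fa.not_mem _ h
        · exact fa'.not_mem _ h
        · exact fb.not_mem _ h
        · exact fb'.not_mem _ h
        · exact fa.not_mem _ h
        · exact fa'.not_mem _ h
        · exact fb.not_mem _ h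
        · exact fb'.not_mem _ h
      · simp [seg, sub, pO2b, hab, hab.symm]

theorem map_pair {m : List Sym} {a b : ℕ} (h : m.map Prod.fst = [a, b]) :
    ∃ p q, m = [(a, p), (b, q)] := by
  obtain ⟨p, m, rfl, k1⟩ := map_cons_eq h
  obtain ⟨q, m, rfl, k2⟩ := map_cons_eq k1
  rw [List.map_eq_nil_iff] at k2
  subst k2
  exact ⟨p, q, rfl⟩

theorem map_seg {m : List Sym} {a b : ℕ} (x : Bool)
    (h : m.map Prod.fst = if x then [b, a] else [a, b]) :
    ∃ p q, m = if x then [(b, q), (a, p)] else [(a, p), (b, q)] := by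
  cases x with
  | false =>
    obtain ⟨p, q, h⟩ := map_pair h
    exact ⟨p, q, h⟩
  | true =>
    obtain ⟨q, p, h⟩ := map_pair h
    exact ⟨p, q, h⟩

theorem R_om3 {a b c : ℕ} (hab : a ≠ b) (hac : a ≠ c) (hbc : b ≠ c) {U V W : List ℕ}
    (hU : a ∉ U ∧ b ∉ U ∧ c ∉ U) (hV : a ∉ V ∧ b ∉ V ∧ c ∉ V) (hW : a ∉ W ∧ b ∉ W ∧ c ∉ W)
    (x y z : Bool)
    (h : R ((if x then [b, a] else [a, b]) ++ (U ++ ((if y then [c, a] else [a, c]) ++ (V ++
      ((if z then [c, b] else [b, c]) ++ W)))))) :
    R ((if !x then [b, a] else [a, b]) ++ (U ++ ((if !y then [c, a] else [a, c]) ++ (V ++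
      ((if !z then [c, b] else [b, c]) ++ W))))) := by
  obtain ⟨m, h1, h2, h3⟩ := h
  rw [List.map_eq_append_iff] at h1
  obtain ⟨m1, m, rfl, hm1, h1⟩ := h1
  rw [List.map_eq_append_iff] at h1
  obtain ⟨mU, m, rfl, hmU, h1⟩ := h1
  rw [List.map_eq_append_iff] at h1
  obtain ⟨m2, m, rfl, hm2, h1⟩ := h1
  rw [List.map_eq_append_iff] at h1
  obtain ⟨mV, m, rfl, hmV, h1⟩ := h1
  rw [List.map_eq_append_iff] at h1
  obtain ⟨m3, mW, rfl, hm3, hmW⟩ := h1
  obtain ⟨p, q, hm1'⟩ := map_seg x hm1
  obtain ⟨p', r, hm2'⟩ := map_seg y hm2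
  obtain ⟨q', r', hm3'⟩ := map_seg z hm3
  have mem1 : (a, p) ∈ m1 ∧ (b, q) ∈ m1 := by rw [hm1']; cases x <;> simp
  have mem2 : (a, p') ∈ m2 ∧ (c, r) ∈ m2 := by rw [hm2']; cases y <;> simp
  have mem3 : (b, q') ∈ m3 ∧ (c, r') ∈ m3 := by rw [hm3']; cases z <;> simp
  have hn := h2
  simp only [List.nodup_append, List.mem_append] at hn
  obtain ⟨-, ⟨-, ⟨-, -, hn2⟩, -⟩, hn1⟩ := hn
  have hp : p' = !p := by
    apply Nodup.not_eq
    rintro rfl
    exact hn1 _ mem1.1 _ (Or.inr (Or.inl mem2.1)) rfl
  have hq : q' = !q := by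
    apply Nodup.not_eq
    rintro rfl
    exact hn1 _ mem1.2 _ (Or.inr (Or.inr (Or.inr (Or.inl mem3.1)))) rfl
  have hr : r' = !r := by
    apply Nodup.not_eq
    rintro rfl
    exact hn2 _ mem2.2 _ (Or.inr (Or.inl mem3.2)) rfl
  subst hp hq hr
  have hz := Z_om3 hab hac hbc (U := mU) (V := mV) (W := mW)
    ⟨Free.of_map hmU hU.1, Free.of_map hmU hU.2.1, Free.of_map hmU hU.2.2⟩
    ⟨Free.of_map hmV hV.1, Free.of_map hmV hV.2.1, Free.of_map hmV hV.2.2⟩
    ⟨Free.of_map hmW hW.1, Free.of_map hmW hW.2.1, Free.of_map hmW hW.2.2⟩ p q r x y z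
  rw [hm1', hm2', hm3'] at h3
  rw [h3] at hz
  refine ⟨_, ?_, ?_, hz.symm⟩
  · simp only [List.map_append, hmU, hmV, hmW]
    cases x <;> cases y <;> cases z <;> simp
  · refine (List.Perm.nodup_iff ?_).1 h2
    rw [hm1', hm2', hm3']
    have e1 : (if x = true then [(b, q), (a, p)] else [(a, p), (b, q)]).Perm
        (if (!x) = true then [(b, q), (a, p)] else [(a, p), (b, q)]) := by
      cases x
      · exact List.Perm.swap _ _ _
      · exact List.Perm.swap _ _ _
    have e2 : (if y = true then [(c, r), (a, !p)] else [(a, !p), (c, r)]).Perm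
        (if (!y) = true then [(c, r), (a, !p)] else [(a, !p), (c, r)]) := by
      cases y
      · exact List.Perm.swap _ _ _
      · exact List.Perm.swap _ _ _
    have e3 : (if z = true then [(c, !r), (b, !q)] else [(b, !q), (c, !r)]).Perm
        (if (!z) = true then [(c, !r), (b, !q)] else [(b, !q), (c, !r)]) := by
      cases z
      · exact List.Perm.swap _ _ _
      · exact List.Perm.swap _ _ _
    exact e1.append ((List.Perm.refl _).append (e2.append ((List.Perm.refl _).append
      (e3.append (List.Perm.refl _)))))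

end Pool.Agent.Helper67.Heptagon
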